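import Mathlib

/-!
A convex-analysis core: the Legendre-type transform of the square root of the areas of the Wulff
shapes, and of the rate function of the area. Thresholds and exponents.
-/

set_option autoImplicit false

open Filter Topology Set

namespace Pool.Agent.H557.IT

/-- `g` the square root of the areas, `rho` the rate function in terms of the square root of the
area, `F` the free energy -/
structure Sys (g rho F : ℝ → ℝ) : Prop where
  gpos : ∀ E, 0 < E → 0 < g E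
  gmono : ∀ E E', 0 < E → E ≤ E' → g E ≤ g E'
  gconc : ∀ E E', 0 < E → E ≤ E' → E * g E' ≤ E' * g E
  le_rho : ∀ x, 0 ≤ x → x ≤ 1 / 2 → ∀ E, 0 < E → 2 * (x * g E) - 2 * E ≤ rho x
  rho_le : ∀ x b, 0 ≤ x → x ≤ 1 / 2 → (∀ E, 0 < E → 2 * (x * g E) - 2 * E ≤ b) → rho x ≤ b
  rho_pos : ∀ x, 0 < x → x ≤ 1 / 2 → 0 < rho x
  dual : ∀ E c, 0 < E → (∀ x, 0 < x → x ≤ 1 / 2 → c * x ≤ rho x + 2 * E) → c ≤ 2 * g E
  le_F : ∀ s x, 0 ≤ x → x ≤ 1 / 2 → s * x ^ 2 - rho x ≤ F s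
  F_le : ∀ s, ∃ x, 0 ≤ x ∧ x ≤ 1 / 2 ∧ F s = s * x ^ 2 - rho x

variable {g rho F : ℝ → ℝ}

theorem Sys.rho_zero (S : Sys g rho F) : rho 0 = 0 := by
  apply le_antisymm
  · apply S.rho_le 0 0 le_rfl (by norm_num)
    intro E hE
    rw [zero_mul]
    linarith
  · apply le_of_forall_pos_le_add
    intro ε hε
    have := S.le_rho 0 le_rfl (by norm_num) (ε / 2) (by linarith)
    rw [zero_mul] at this
    linarith

theorem Sys.rho_mono (S : Sys g rho F) {x y : ℝ} (hx : 0 ≤ x) (hxy : x ≤ y) (hy : y ≤ 1 / 2) :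
    rho x ≤ rho y := by
  apply S.rho_le x _ hx (hxy.trans hy)
  intro E hE
  refine le_trans ?_ (S.le_rho y (hx.trans hxy) hy E hE)
  have := mul_le_mul_of_nonneg_right hxy (S.gpos E hE).le
  linarith

theorem Sys.rho_nonneg (S : Sys g rho F) {x : ℝ} (hx : 0 ≤ x) (hy : x ≤ 1 / 2) : 0 ≤ rho x := by
  have := S.rho_mono le_rfl hx hy
  rwa [S.rho_zero] at this

theorem Sys.F_nonneg (S : Sys g rho F) (s : ℝ) : 0 ≤ F s := by
  have := S.le_F s 0 le_rfl (by norm_num)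
  rw [S.rho_zero] at this
  linarith [this]

/-! ### the threshold -/

theorem Sys.F_zero (S : Sys g rho F) {σ : ℝ} (hσ0 : 0 ≤ σ)
    (hσ : ∀ E, 0 < E → 2 * σ * E ≤ g E ^ 2) {s : ℝ} (hs : s ≤ σ) : F s = 0 := by
  apply le_antisymm _ (S.F_nonneg s)
  obtain ⟨x, hx0, hx1, hx⟩ := S.F_le s
  rw [hx]
  rcases hx0.eq_or_lt with h0 | h0
  · rw [← h0, S.rho_zero]
    norm_num
  have hx2 : 0 < x ^ 2 := by positivity
  have h1 : s * x ^ 2 ≤ σ * x ^ 2 := mul_le_mul_of_nonneg_right hs hx2.le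
  rcases hσ0.eq_or_lt with h2 | h2
  · have := S.rho_nonneg hx0 hx1
    rw [← h2] at h1
    linarith
  have hE : 0 < σ * x ^ 2 / 2 := by positivity
  have h3 := hσ _ hE
  have h4 : σ * x ≤ g (σ * x ^ 2 / 2) := by
    apply le_of_sq_le_sq' _ (S.gpos _ hE).le
    calc (σ * x) ^ 2 = 2 * σ * (σ * x ^ 2 / 2) := by ring
      _ ≤ _ := h3
  have h5 := S.le_rho x hx0 hx1 _ hE
  have h6 := mul_le_mul_of_nonneg_left h4 hx0
  nlinarith
where
  le_of_sq_le_sq' {a b : ℝ} (h : a ^ 2 ≤ b ^ 2) (hb : 0 ≤ b) : a ≤ b := by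
    by_contra hc
    push Not at hc
    nlinarith

theorem Sys.F_pos (S : Sys g rho F) {s : ℝ} (hs : 0 ≤ s)
    (h : ∃ E, 0 < E ∧ g E ^ 2 < 2 * s * E) : 0 < F s := by
  by_contra hcon
  push Not at hcon
  obtain ⟨E, hE, h1⟩ := h
  have h2 : 2 * √(2 * s * E) ≤ 2 * g E := by
    apply S.dual E _ hE
    intro x hx0 hx1
    have h3 := S.le_F s x hx0.le hx1
    have h4 : 0 ≤ 2 * s * E := by positivity
    have h5 := Real.sq_sqrt h4
    have h6 := Real.sqrt_nonneg (2 * s * E)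
    -- s x^2 + 2 E ≥ 2 √(2 s E) x
    have h7 : 2 * √(2 * s * E) * x ≤ s * x ^ 2 + 2 * E := by
      have h8 : (√s * x - √(2 * E)) ^ 2 ≥ 0 := sq_nonneg _
      have h9 : √(2 * s * E) = √s * √(2 * E) := by
        rw [← Real.sqrt_mul hs]
        congr 1
        ring
      have h10 := Real.sq_sqrt hs
      have h11 := Real.sq_sqrt (show (0 : ℝ) ≤ 2 * E by linarith)
      rw [h9]
      nlinarith
    linarith
  have h3 : √(2 * s * E) ≤ g E := by linarith
  have h4 := pow_le_pow_left₀ (Real.sqrt_nonneg _) h3 2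
  rw [Real.sq_sqrt (by positivity)] at h4
  linarith

/-! ### powers -/

/-- upper bound of `g`, lower bound of the rate function -/
theorem Sys.rho_upper (S : Sys g rho F) {ν C E1 : ℝ} {k : ℕ} (hν : 1 / 2 < ν) (hν1 : ν < 1)
    (hC : 0 < C)
    (h : ∀ E, 0 < E → E ≤ E1 → g E ≤ C * E ^ ν * Real.log (1 / E) ^ k) :
    ∃ K, 1 ≤ K ∧ ∀ x, 0 < x → x ≤ 1 / 2 → 1 ≤ Real.log (1 / x) →
      (K * x * Real.log (1 / x) ^ k) ^ (1 / (1 - ν)) ≤ min E1 1 →
      rho x ≤ 2 * (K * x * Real.log (1 / x) ^ k) ^ (1 / (1 - ν)) := by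
  have h1ν : 0 < 1 - ν := by linarith
  obtain ⟨a, ha⟩ : ∃ a, a = 1 / (1 - ν) := ⟨_, rfl⟩
  have ha0 : 0 < a := by rw [ha]; positivity
  refine ⟨max 1 (C * a ^ k), le_max_left _ _, ?_⟩
  intro x hx0 hx1 hL hE
  obtain ⟨K, hK⟩ : ∃ K, K = max 1 (C * a ^ k) := ⟨_, rfl⟩
  obtain ⟨L, hLd⟩ : ∃ L, L = Real.log (1 / x) := ⟨_, rfl⟩
  rw [← ha, ← hK, ← hLd] at hE ⊢
  rw [← hLd] at hL
  have hK1 : 1 ≤ K := by rw [hK]; exact le_max_left _ _
  have hK2 : C * a ^ k ≤ K := by rw [hK]; exact le_max_right _ _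
  have hK0 : 0 < K := by linarith
  have hL0 : 0 < L := by linarith
  have hLk : 1 ≤ L ^ k := one_le_pow₀ hL
  have hB0 : 0 < K * x * L ^ k := by positivity
  obtain ⟨E0, hE0⟩ : ∃ E0, E0 = (K * x * L ^ k) ^ a := ⟨_, rfl⟩
  have hE0p : 0 < E0 := by rw [hE0]; exact Real.rpow_pos_of_pos hB0 _
  rw [← hE0] at hE ⊢
  have hEE1 : E0 ≤ E1 := hE.trans (min_le_left _ _)
  have hEE2 : E0 ≤ 1 := hE.trans (min_le_right _ _)
  have hroot : E0 ^ (1 - ν) = K * x * L ^ k := by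
    rw [hE0, ← Real.rpow_mul hB0.le, ha, one_div_mul_cancel h1ν.ne', Real.rpow_one]
  have hlog : Real.log (1 / E0) ≤ a * L := by
    rw [hE0, one_div, Real.log_inv, Real.log_rpow hB0]
    have h2 : -L ≤ Real.log (K * x * L ^ k) := by
      have h3 : x ≤ K * x * L ^ k := by
        have : 1 * x * 1 ≤ K * x * L ^ k := by
          apply mul_le_mul (mul_le_mul_of_nonneg_right hK1 hx0.le) hLk zero_le_one (by positivity)
        linarith
      have h4 := Real.log_le_log hx0 h3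
      have h5 : -L = Real.log x := by rw [hLd, one_div, Real.log_inv, neg_neg]
      rw [h5]
      exact h4
    nlinarith
  have hlog0 : 0 ≤ Real.log (1 / E0) := by
    apply Real.log_nonneg
    rw [le_div_iff₀ hE0p]
    linarith
  have hg : x * g E0 ≤ E0 := by
    have h2 := h E0 hE0p hEE1
    have h3 : Real.log (1 / E0) ^ k ≤ (a * L) ^ k := pow_le_pow_left₀ hlog0 hlog k
    have hEν : 0 < E0 ^ ν := Real.rpow_pos_of_pos hE0p _
    have h4 : g E0 ≤ C * E0 ^ ν * (a * L) ^ k :=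
      h2.trans (mul_le_mul_of_nonneg_left h3 (by positivity))
    have h5 : C * E0 ^ ν * (a * L) ^ k = (C * a ^ k) * (L ^ k * E0 ^ ν) := by
      rw [mul_pow]
      ring
    have h6 : (C * a ^ k) * (L ^ k * E0 ^ ν) ≤ K * (L ^ k * E0 ^ ν) :=
      mul_le_mul_of_nonneg_right hK2 (by positivity)
    calc x * g E0 ≤ x * (K * (L ^ k * E0 ^ ν)) :=
          mul_le_mul_of_nonneg_left (by linarith) hx0.le
      _ = (K * x * L ^ k) * E0 ^ ν := by ring
      _ = E0 ^ (1 - ν) * E0 ^ ν := by rw [hroot]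
      _ = E0 := by
          rw [← Real.rpow_add hE0p, sub_add_cancel, Real.rpow_one]
  apply S.rho_le x _ hx0.le hx1
  intro E hE'
  rcases le_total E E0 with h2 | h2
  · have h3 := mul_le_mul_of_nonneg_left (S.gmono E E0 hE' h2) hx0.le
    linarith
  · have h3 := S.gconc E0 E hE0p h2
    have h4 : E0 * (x * g E) ≤ E0 * E := by
      calc E0 * (x * g E) = x * (E0 * g E) := by ring
        _ ≤ x * (E * g E0) := mul_le_mul_of_nonneg_left h3 hx0.le
        _ = E * (x * g E0) := by ring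
        _ ≤ E * E0 := mul_le_mul_of_nonneg_left hg hE'.le
        _ = E0 * E := by ring
    have h5 := le_of_mul_le_mul_left h4 hE0p
    linarith

theorem small_delta {a : ℝ} (ha : 2 < a) {K : ℝ} (hK : 1 ≤ K) {D : ℝ} (hD : 0 ≤ D) (k : ℕ) :
    ∃ δ : ℝ, 0 < δ ∧ δ < 1 ∧ 4 * (K * δ * (Real.log (1 / δ) + D) ^ k) ^ a ≤ δ ^ 2 := by
  have ha0 : 0 < a := by linarith
  obtain ⟨t, ht⟩ : ∃ t, t = 1 - 2 / a := ⟨_, rfl⟩
  have ht0 : 0 < t := by
    rw [ht, sub_pos, div_lt_one ha0]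
    exact ha
  obtain ⟨τ, hτ⟩ : ∃ τ : ℝ, τ = t / (k + 1) := ⟨_, rfl⟩
  have hτ0 : 0 < τ := by rw [hτ]; positivity
  have l1 : Tendsto (fun x : ℝ => x ^ τ) (𝓝[>] 0) (𝓝 0) := by
    have h1 : Tendsto (fun x : ℝ => x ^ τ) (𝓝 0) (𝓝 (0 ^ τ)) :=
      (Real.continuousAt_rpow_const 0 τ (Or.inr hτ0.le)).tendsto
    rw [Real.zero_rpow hτ0.ne'] at h1
    exact h1.mono_left nhdsWithin_le_nhds
  have l2 : Tendsto (fun x : ℝ => x ^ τ * (Real.log (1 / x) + D)) (𝓝[>] 0) (𝓝 0) := by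
    have h1 := tendsto_log_mul_rpow_nhdsGT_zero hτ0
    have h2 : Tendsto (fun x : ℝ => -(Real.log x * x ^ τ) + D * x ^ τ) (𝓝[>] 0)
        (𝓝 (-0 + D * 0)) := h1.neg.add (l1.const_mul D)
    rw [mul_zero, neg_zero, add_zero] at h2
    refine h2.congr ?_
    intro x
    rw [one_div, Real.log_inv]
    ring
  have l3 : Tendsto (fun x : ℝ => K * ((x ^ τ * (Real.log (1 / x) + D)) ^ k * x ^ τ)) (𝓝[>] 0)
      (𝓝 (K * (0 ^ k * 0))) := ((l2.pow k).mul l1).const_mul K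
  rw [mul_zero, mul_zero] at l3
  have hq : (0 : ℝ) < (1 / 4) ^ (1 / a) := Real.rpow_pos_of_pos (by norm_num) _
  obtain ⟨δ, h1, h2, h3⟩ := ((l3.eventually_le_const hq).and
    ((eventually_mem_nhdsWithin).and (mem_nhdsWithin_of_mem_nhds
      (Iio_mem_nhds (show (0 : ℝ) < 1 by norm_num))))).exists
  simp only [mem_Ioi] at h2
  have h3 : δ < 1 := h3
  refine ⟨δ, h2, h3, ?_⟩
  have hlog : 0 ≤ Real.log (1 / δ) := by
    apply Real.log_nonneg
    rw [le_div_iff₀ h2]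
    linarith
  obtain ⟨B, hB⟩ : ∃ B, B = Real.log (1 / δ) + D := ⟨_, rfl⟩
  have hB0 : 0 ≤ B := by rw [hB]; linarith
  rw [← hB] at h1 ⊢
  have e1 : K * ((δ ^ τ * B) ^ k * δ ^ τ) = K * B ^ k * δ ^ t := by
    have : (δ ^ τ) ^ k * δ ^ τ = δ ^ t := by
      rw [← pow_succ, ← Real.rpow_natCast, ← Real.rpow_mul h2.le]
      congr 1
      rw [hτ]
      push_cast
      field_simp
    rw [mul_pow, ← this]
    ring
  rw [e1] at h1
  have h4 : K * δ * B ^ k ≤ (δ ^ 2 / 4) ^ (1 / a) := by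
    have e2 : (δ ^ 2 / 4 : ℝ) ^ (1 / a) = (1 / 4) ^ (1 / a) * δ ^ (2 / a) := by
      rw [div_eq_mul_inv, mul_comm, ← one_div, Real.mul_rpow (by norm_num) (by positivity)]
      congr 1
      rw [← Real.rpow_natCast δ 2, ← Real.rpow_mul h2.le]
      congr 1
      push_cast
      ring
    have e3 : δ = δ ^ t * δ ^ (2 / a) := by
      rw [← Real.rpow_add h2, ht, sub_add_cancel, Real.rpow_one]
    rw [e2]
    calc K * δ * B ^ k = (K * B ^ k) * δ := by ring
      _ = (K * B ^ k * δ ^ t) * δ ^ (2 / a) := by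
          conv_lhs => rw [e3]
          ring
      _ ≤ _ := mul_le_mul_of_nonneg_right h1 (Real.rpow_pos_of_pos h2 _).le
  have h5 : (K * δ * B ^ k) ^ a ≤ ((δ ^ 2 / 4) ^ (1 / a)) ^ a :=
    Real.rpow_le_rpow (by positivity) h4 ha0.le
  rw [← Real.rpow_mul (by positivity), one_div_mul_cancel ha0.ne', Real.rpow_one] at h5
  linarith

/-- upper bounds of `g` give lower bounds of `F` -/
theorem Sys.F_lower (S : Sys g rho F) {ν C E1 : ℝ} {k : ℕ} (hν : 1 / 2 < ν) (hν1 : ν < 1)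
    (hC : 0 < C) (hE1 : 0 < E1)
    (h : ∀ E, 0 < E → E ≤ E1 → g E ≤ C * E ^ ν * Real.log (1 / E) ^ k) :
    ∃ c, 0 < c ∧ ∀ᶠ s in 𝓝[>] (0 : ℝ),
      c * (s / Real.log (1 / s) ^ (2 * k)) ^ (1 / (2 * ν - 1)) ≤ F s := by
  have h1ν : 0 < 1 - ν := by linarith
  have h2ν : 0 < 2 * ν - 1 := by linarith
  obtain ⟨a, ha⟩ : ∃ a, a = 1 / (1 - ν) := ⟨_, rfl⟩
  have ha2 : 2 < a := by
    rw [ha, lt_div_iff₀ h1ν]
    linarith
  have ha0 : 0 < a := by linarith
  obtain ⟨q, hq⟩ : ∃ q, q = 1 / (2 * ν - 1) := ⟨_, rfl⟩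
  have hq0 : 0 < q := by rw [hq]; positivity
  obtain ⟨b, hb⟩ : ∃ b, b = (1 - ν) / (2 * ν - 1) := ⟨_, rfl⟩
  have hb0 : 0 < b := by rw [hb]; positivity
  have hab : a * b = q := by
    rw [ha, hb, hq]
    field_simp
  have h2b : 1 + 2 * b = q := by
    rw [hb, hq]
    field_simp
    ring
  obtain ⟨K, hK, hrho⟩ := S.rho_upper hν hν1 hC h
  rw [← ha] at hrho
  obtain ⟨δ, hδ0, hδ1, hδ⟩ := small_delta ha2 hK (D := b + k * q) (by positivity) k
  have hlδ : 0 ≤ Real.log (1 / δ) := by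
    apply Real.log_nonneg
    rw [le_div_iff₀ hδ0]
    linarith
  obtain ⟨B, hB⟩ : ∃ B, B = Real.log (1 / δ) + (b + k * q) := ⟨_, rfl⟩
  have hB0 : 0 < B := by rw [hB]; positivity
  rw [← hB] at hδ
  refine ⟨δ ^ 2 / 2, by positivity, ?_⟩
  -- the point
  have hpow : ∀ r : ℝ, 0 < r → Tendsto (fun s : ℝ => s ^ r) (𝓝[>] 0) (𝓝 0) := by
    intro r hr
    have h1 : Tendsto (fun x : ℝ => x ^ r) (𝓝 0) (𝓝 (0 ^ r)) :=
      (Real.continuousAt_rpow_const 0 r (Or.inr hr.le)).tendsto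
    rw [Real.zero_rpow hr.ne'] at h1
    exact h1.mono_left nhdsWithin_le_nhds
  have hlogt : Tendsto (fun s : ℝ => Real.log (1 / s)) (𝓝[>] 0) atTop := by
    have := Real.tendsto_log_nhdsGT_zero
    refine (tendsto_neg_atBot_atTop.comp this).congr ?_
    intro x
    simp [Real.log_inv]
  have hm : (0 : ℝ) < min E1 1 := lt_min hE1 one_pos
  filter_upwards [eventually_mem_nhdsWithin, hlogt.eventually (eventually_ge_atTop 1),
    (hpow b hb0).eventually_le_const (show (0 : ℝ) < 1 / 4 by norm_num),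
    (hpow b hb0).eventually_le_const (show (0 : ℝ) < Real.exp (-1) from Real.exp_pos _),
    (hpow q hq0).eventually_le_const hm] with s hs hL hsb hsb2 hsq
  simp only [mem_Ioi] at hs
  obtain ⟨L, hLd⟩ : ∃ L, L = Real.log (1 / s) := ⟨_, rfl⟩
  rw [← hLd] at hL
  rw [← hLd, ← hq]
  have hL0 : 0 < L := by linarith
  obtain ⟨w, hw⟩ : ∃ w, w = L ^ (-(k * q)) := ⟨_, rfl⟩
  have hw0 : 0 < w := by rw [hw]; exact Real.rpow_pos_of_pos hL0 _
  have hw1 : w ≤ 1 := by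
    rw [hw]
    apply Real.rpow_le_one_of_one_le_of_nonpos hL
    have : (0 : ℝ) ≤ k * q := by positivity
    linarith
  have hsb0 : 0 < s ^ b := Real.rpow_pos_of_pos hs _
  obtain ⟨x, hx⟩ : ∃ x, x = δ * s ^ b * w := ⟨_, rfl⟩
  have hx0 : 0 < x := by rw [hx]; positivity
  have hxs : x ≤ s ^ b := by
    rw [hx]
    calc δ * s ^ b * w ≤ 1 * s ^ b * 1 := by
          apply mul_le_mul (mul_le_mul_of_nonneg_right hδ1.le hsb0.le) hw1 hw0.le (by positivity)
      _ = s ^ b := by ring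
  have hx12 : x ≤ 1 / 2 := by linarith
  have hLx1 : 1 ≤ Real.log (1 / x) := by
    rw [one_div, Real.log_inv]
    have h1 : Real.log x ≤ Real.log (Real.exp (-1)) := Real.log_le_log hx0 (by linarith)
    rw [Real.log_exp] at h1
    linarith
  have hLx : Real.log (1 / x) ≤ B * L := by
    have e1 : Real.log (1 / x) = Real.log (1 / δ) + b * L + k * q * Real.log L := by
      rw [hx, hLd, one_div, Real.log_inv, Real.log_mul (by positivity) hw0.ne',
        Real.log_mul hδ0.ne' hsb0.ne', Real.log_rpow hs, hw, Real.log_rpow hL0, one_div,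
        Real.log_inv, one_div, Real.log_inv, hLd, one_div, Real.log_inv]
      ring
    have h1 : Real.log L ≤ L := (Real.log_le_sub_one_of_pos hL0).trans (by linarith)
    have h2 : k * q * Real.log L ≤ k * q * L := mul_le_mul_of_nonneg_left h1 (by positivity)
    have h3 : Real.log (1 / δ) * 1 ≤ Real.log (1 / δ) * L := mul_le_mul_of_nonneg_left hL hlδ
    rw [e1, hB]
    linarith
  have hLk : Real.log (1 / x) ^ k ≤ B ^ k * L ^ k := by
    rw [← mul_pow]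
    exact pow_le_pow_left₀ (by linarith) hLx k
  -- the main term
  have hM : (K * x * Real.log (1 / x) ^ k) ^ a ≤ (K * δ * B ^ k) ^ a * (s ^ q * (w ^ a * (L ^ k) ^ a)) := by
    have h1 : K * x * Real.log (1 / x) ^ k ≤ (K * δ * B ^ k) * (s ^ b * (w * L ^ k)) := by
      calc K * x * Real.log (1 / x) ^ k ≤ K * x * (B ^ k * L ^ k) :=
            mul_le_mul_of_nonneg_left hLk (by positivity)
        _ = _ := by rw [hx]; ring
    have h2 : 0 ≤ K * x * Real.log (1 / x) ^ k := by positivity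
    have h3 := Real.rpow_le_rpow h2 h1 ha0.le
    have e0 : (K * δ * B ^ k * (s ^ b * (w * L ^ k))) ^ a =
        (K * δ * B ^ k) ^ a * (s ^ q * (w ^ a * (L ^ k) ^ a)) := by
      rw [Real.mul_rpow (x := K * δ * B ^ k) (by positivity) (by positivity),
        Real.mul_rpow (x := s ^ b) (by positivity) (by positivity),
        Real.mul_rpow (x := w) (by positivity) (by positivity), ← Real.rpow_mul hs.le,
        mul_comm b a, hab]
    rw [e0] at h3
    exact h3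
  have hwL : w ^ a * (L ^ k) ^ a = w ^ 2 := by
    rw [hw, ← Real.rpow_natCast L k, ← Real.rpow_mul hL0.le, ← Real.rpow_mul hL0.le,
      ← Real.rpow_add hL0, ← Real.rpow_natCast (L ^ (-(k * q))) 2, ← Real.rpow_mul hL0.le]
    congr 1
    push_cast
    linear_combination (k * a) * h2b - 2 * k * hab
  rw [hwL] at hM
  have hM2 : (K * x * Real.log (1 / x) ^ k) ^ a ≤ δ ^ 2 / 4 * (s ^ q * w ^ 2) := by
    refine hM.trans (mul_le_mul_of_nonneg_right ?_ (by positivity))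
    linarith
  have hsmall : (K * x * Real.log (1 / x) ^ k) ^ a ≤ min E1 1 := by
    refine hM2.trans ?_
    have h1 : δ ^ 2 / 4 ≤ 1 := by nlinarith
    have h2 : w ^ 2 ≤ 1 := pow_le_one₀ hw0.le hw1
    have h3 : s ^ q * w ^ 2 ≤ s ^ q := mul_le_of_le_one_right (Real.rpow_pos_of_pos hs _).le h2
    have h4 : δ ^ 2 / 4 * (s ^ q * w ^ 2) ≤ 1 * (s ^ q * w ^ 2) :=
      mul_le_mul_of_nonneg_right h1 (by have := Real.rpow_pos_of_pos hs q; positivity)
    linarith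
  have h1 := hrho x hx0 hx12 hLx1 hsmall
  have h2 := S.le_F s x hx0.le hx12
  have e2 : s * x ^ 2 = δ ^ 2 * (s ^ q * w ^ 2) := by
    have : s ^ q = s * (s ^ b) ^ 2 := by
      rw [← h2b, Real.rpow_add hs, Real.rpow_one, mul_comm 2 b, Real.rpow_mul hs.le]
      norm_num
    rw [this, hx]
    ring
  have e3 : (s / L ^ (2 * k)) ^ q = s ^ q * w ^ 2 := by
    rw [Real.div_rpow hs.le (by positivity), div_eq_mul_inv]
    congr 1
    rw [hw, ← Real.rpow_natCast L (2 * k), ← Real.rpow_mul hL0.le, ← Real.rpow_neg hL0.le,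
      ← Real.rpow_natCast (L ^ (-(k * q))) 2, ← Real.rpow_mul hL0.le]
    congr 1
    push_cast
    ring
  rw [e3]
  linarith

end Pool.Agent.H557.IT
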