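import Pool.Agent.H557.IT.Abs

/-!
The exponents: upper bounds of `F` and lower bounds of `g`; the limit of the exponents.
-/

set_option autoImplicit false

open Filter Topology Set

namespace Pool.Agent.H557.IT

variable {g rho F : ℝ → ℝ}

theorem rpow_zero_lim {r : ℝ} (hr : 0 < r) : Tendsto (fun s : ℝ => s ^ r) (𝓝[>] 0) (𝓝 0) := by
  have h1 : Tendsto (fun x : ℝ => x ^ r) (𝓝 0) (𝓝 (0 ^ r)) :=
    (Real.continuousAt_rpow_const 0 r (Or.inr hr.le)).tendsto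
  rw [Real.zero_rpow hr.ne'] at h1
  exact h1.mono_left nhdsWithin_le_nhds

theorem ev_one : ∀ᶠ s in 𝓝[>] (0 : ℝ), 0 < s ∧ s < 1 := by
  filter_upwards [eventually_mem_nhdsWithin, mem_nhdsWithin_of_mem_nhds
    (Iio_mem_nhds (show (0 : ℝ) < 1 by norm_num))] with s h1 h2
  exact ⟨h1, h2⟩

theorem near {P : ℝ → Prop} (h : ∀ᶠ s in 𝓝[>] (0 : ℝ), P s) :
    ∃ s1, 0 < s1 ∧ ∀ s, 0 < s → s ≤ s1 → P s := by
  rw [eventually_nhdsWithin_iff, Metric.eventually_nhds_iff] at h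
  obtain ⟨ε, hε, h1⟩ := h
  refine ⟨ε / 2, by linarith, ?_⟩
  intro s hs0 hs1
  apply h1 _ hs0
  rw [Real.dist_eq, sub_zero, abs_of_pos hs0]
  linarith

theorem near2 {P : ℝ → Prop} (h : ∀ᶠ s in 𝓝[>] (0 : ℝ), P s) :
    ∃ s1, 0 < s1 ∧ s1 ≤ 1 / 2 ∧ ∀ s, 0 < s → s ≤ s1 → P s := by
  obtain ⟨s1, h1, h2⟩ := near h
  refine ⟨min s1 (1 / 2), lt_min h1 (by norm_num), min_le_right _ _, ?_⟩
  intro s hs0 hs
  exact h2 s hs0 (hs.trans (min_le_left _ _))

theorem ev_le {c : ℝ} (hc : 0 < c) : ∀ᶠ s in 𝓝[>] (0 : ℝ), s ≤ c := by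
  filter_upwards [mem_nhdsWithin_of_mem_nhds (Iio_mem_nhds hc)] with s hs
  exact le_of_lt hs

/-- lower bounds of `g` give lower bounds of `rho` -/
theorem Sys.rho_of_g (S : Sys g rho F) {ν c E1 : ℝ} (hν1 : ν < 1)
    (hc : 0 < c) (hE1 : 0 < E1) (h : ∀ E, 0 < E → E ≤ E1 → c * E ^ ν ≤ g E) :
    ∃ c', 0 < c' ∧ ∀ᶠ x in 𝓝[>] (0 : ℝ), c' * x ^ (1 / (1 - ν)) ≤ rho x := by
  have h1ν : 0 < 1 - ν := by linarith
  obtain ⟨a, ha⟩ : ∃ a, a = 1 / (1 - ν) := ⟨_, rfl⟩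
  have ha0 : 0 < a := by rw [ha]; positivity
  rw [← ha]
  refine ⟨2 * (c / 2) ^ a, by
    have := Real.rpow_pos_of_pos (show 0 < c / 2 by linarith) a
    positivity, ?_⟩
  have hE : ∀ᶠ x in 𝓝[>] (0 : ℝ), (c / 2) ^ a * x ^ a ≤ E1 := by
    have h1 : Tendsto (fun x : ℝ => (c / 2) ^ a * x ^ a) (𝓝[>] 0) (𝓝 ((c / 2) ^ a * 0)) :=
      (rpow_zero_lim ha0).const_mul _
    rw [mul_zero] at h1
    exact h1.eventually_le_const hE1
  filter_upwards [ev_one, ev_le (show (0 : ℝ) < 1 / 2 by norm_num), hE] with x ⟨hx0, _⟩ hx1 hE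
  have h7 : (c / 2 * x) ^ a = (c / 2) ^ a * x ^ a := Real.mul_rpow (by positivity) hx0.le
  rw [← h7] at hE
  have hE0 : 0 < (c / 2 * x) ^ a := Real.rpow_pos_of_pos (by positivity) _
  have h1 := S.le_rho x hx0.le hx1 _ hE0
  have h2 := h _ hE0 hE
  have h3 : ((c / 2 * x) ^ a) ^ (1 - ν) = c / 2 * x := by
    rw [← Real.rpow_mul (by positivity), ha, one_div_mul_cancel h1ν.ne', Real.rpow_one]
  have h4 : (c / 2 * x) * ((c / 2 * x) ^ a) ^ ν = (c / 2 * x) ^ a := by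
    nth_rewrite 1 [← h3]
    rw [← Real.rpow_add hE0, sub_add_cancel, Real.rpow_one]
  have h5 : x * (c * ((c / 2 * x) ^ a) ^ ν) = 2 * (c / 2 * x) ^ a := by
    linear_combination 2 * h4
  have h6 := mul_le_mul_of_nonneg_left h2 hx0.le
  rw [h5] at h6
  rw [h7] at h6 h1
  linarith

/-- lower bounds of `rho` give upper bounds of `F` -/
theorem Sys.F_of_rho (S : Sys g rho F) {ν c' : ℝ} (hν : 1 / 2 < ν) (hν1 : ν < 1)
    (hc'0 : 0 < c') (h : ∀ᶠ x in 𝓝[>] (0 : ℝ), c' * x ^ (1 / (1 - ν)) ≤ rho x) :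
    ∃ C, 0 < C ∧ ∀ᶠ s in 𝓝[>] (0 : ℝ), F s ≤ C * s ^ (1 / (2 * ν - 1)) := by
  have h1ν : 0 < 1 - ν := by linarith
  have h2ν : 0 < 2 * ν - 1 := by linarith
  obtain ⟨a, ha⟩ : ∃ a, a = 1 / (1 - ν) := ⟨_, rfl⟩
  rw [← ha] at h
  have ha2 : 0 < a - 2 := by
    rw [ha, sub_pos, lt_div_iff₀ h1ν]
    linarith
  have ha0 : 0 < a := by linarith
  obtain ⟨q, hq⟩ : ∃ q, q = 1 / (2 * ν - 1) := ⟨_, rfl⟩
  have haq : 1 + 2 / (a - 2) = q := by
    have h1 : a * (1 - ν) = 1 := by rw [ha]; field_simp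
    have h2 : q * (2 * ν - 1) = 1 := by rw [hq]; field_simp
    have h3 : (a - 2) * q = a := by
      have : (a - 2) * (1 - ν) = 2 * ν - 1 := by linear_combination h1
      have h4 : (a - 2) * q * (1 - ν) = a * (1 - ν) := by
        linear_combination q * this + h2 - h1
      exact mul_right_cancel₀ h1ν.ne' h4
    field_simp
    linarith
  rw [← hq]
  obtain ⟨x1, hx1, hx1', hrho⟩ := near2 h
  have hr1 := S.rho_pos x1 hx1 hx1'
  refine ⟨c' ^ (-(2 / (a - 2))), Real.rpow_pos_of_pos hc'0 _, ?_⟩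
  filter_upwards [eventually_mem_nhdsWithin, mem_nhdsWithin_of_mem_nhds
    (Iio_mem_nhds (show (0 : ℝ) < rho x1 by exact hr1))] with s hs hs2
  have hs0 : 0 < s := hs
  have hs1 : s < rho x1 := hs2
  obtain ⟨x, hx0, hx2, hx⟩ := S.F_le s
  rw [hx]
  have hpos : 0 < c' ^ (-(2 / (a - 2))) * s ^ q := by
    have := Real.rpow_pos_of_pos hc'0 (-(2 / (a - 2)))
    have := Real.rpow_pos_of_pos hs0 q
    positivity
  rcases hx0.eq_or_lt with h0 | h0
  · rw [← h0, S.rho_zero]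
    norm_num
    linarith
  rcases le_total x x1 with h1 | h1
  · have h3 := hrho x h0 h1
    have h4 : x ^ a = x ^ (a - 2) * x ^ 2 := by
      rw [← Real.rpow_natCast x 2, ← Real.rpow_add h0]
      congr 1
      push_cast
      ring
    rcases le_total s (c' * x ^ (a - 2)) with h5 | h5
    · have h6 := mul_le_mul_of_nonneg_right h5 (sq_nonneg x)
      have h7 : c' * x ^ a = c' * x ^ (a - 2) * x ^ 2 := by rw [h4]; ring
      linarith
    · have h6 : x ^ (a - 2) ≤ c'⁻¹ * s := by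
        rw [inv_mul_eq_div, le_div_iff₀ hc'0]
        linarith
      have h7 : x ^ 2 ≤ (c'⁻¹ * s) ^ (2 / (a - 2)) := by
        have h8 := Real.rpow_le_rpow (Real.rpow_pos_of_pos h0 _).le h6
          (show 0 ≤ 2 / (a - 2) by positivity)
        have h9 : (x ^ (a - 2)) ^ (2 / (a - 2)) = x ^ 2 := by
          rw [← Real.rpow_mul h0.le, mul_div_cancel₀ _ ha2.ne', ← Real.rpow_natCast x 2]
          norm_num
        rwa [h9] at h8
      have h8 : (c'⁻¹ * s) ^ (2 / (a - 2)) = c' ^ (-(2 / (a - 2))) * s ^ (2 / (a - 2)) := by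
        rw [Real.mul_rpow (by positivity) hs0.le, Real.inv_rpow hc'0.le, Real.rpow_neg hc'0.le]
      have h9 : s ^ q = s * s ^ (2 / (a - 2)) := by
        rw [← haq, Real.rpow_add hs0, Real.rpow_one]
      have h10 := S.rho_nonneg hx0 hx2
      have h11 := mul_le_mul_of_nonneg_left h7 hs0.le
      rw [h8] at h11
      rw [h9]
      linarith
  · have h2 := S.rho_mono hx1.le h1 hx2
    have h3 : x ^ 2 ≤ 1 := by nlinarith
    have h4 : s * x ^ 2 ≤ s * 1 := mul_le_mul_of_nonneg_left h3 hs0.le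
    linarith

/-- lower bounds of `g` give upper bounds of `F` -/
theorem Sys.F_upper (S : Sys g rho F) {ν c E1 : ℝ} (hν : 1 / 2 < ν) (hν1 : ν < 1)
    (hc : 0 < c) (hE1 : 0 < E1) (h : ∀ E, 0 < E → E ≤ E1 → c * E ^ ν ≤ g E) :
    ∃ C, 0 < C ∧ ∀ᶠ s in 𝓝[>] (0 : ℝ), F s ≤ C * s ^ (1 / (2 * ν - 1)) := by
  obtain ⟨c', hc', h1⟩ := S.rho_of_g hν1 hc hE1 h
  exact S.F_of_rho hν hν1 hc' h1

/-- upper bounds of `F` give lower bounds of `rho` -/
theorem Sys.rho_of_F (S : Sys g rho F) {ν C : ℝ} (hν : 1 / 2 < ν) (hν1 : ν < 1)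
    (hC : 0 < C) (h : ∀ᶠ s in 𝓝[>] (0 : ℝ), F s ≤ C * s ^ (1 / (2 * ν - 1))) :
    ∃ c', 0 < c' ∧ ∀ᶠ x in 𝓝[>] (0 : ℝ), c' * x ^ (1 / (1 - ν)) ≤ rho x := by
  have h1ν : 0 < 1 - ν := by linarith
  have h2ν : 0 < 2 * ν - 1 := by linarith
  obtain ⟨q, hq⟩ : ∃ q, q = 1 / (2 * ν - 1) := ⟨_, rfl⟩
  rw [← hq] at h
  have hq1 : 0 < q - 1 := by
    rw [hq, sub_pos, lt_div_iff₀ h2ν]
    linarith
  -- the exponent
  obtain ⟨r, hr⟩ : ∃ r, r = 1 / (q - 1) := ⟨_, rfl⟩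
  have hr0 : 0 < r := by rw [hr]; positivity
  have hqv : q * (2 * ν - 1) = 1 := by rw [hq]; field_simp
  have hrv : r * (2 - 2 * ν) = 2 * ν - 1 := by
    have h1 : (q - 1) * (2 * ν - 1) = 2 - 2 * ν := by linear_combination hqv
    rw [hr, ← h1]
    field_simp
  have hra : 1 / (1 - ν) = 2 * (1 + r) := by
    rw [div_eq_iff h1ν.ne']
    linear_combination (-1 : ℝ) * hrv
  obtain ⟨s1, hs1, hs⟩ := near h
  obtain ⟨c', hc'⟩ : ∃ c', c' = (2 * C) ^ (-r) / 2 := ⟨_, rfl⟩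
  have hc'0 : 0 < c' := by
    rw [hc']
    have := Real.rpow_pos_of_pos (show 0 < 2 * C by linarith) (-r)
    positivity
  have hrho : ∀ x, 0 < x → x ≤ 1 / 2 → (x ^ 2 / (2 * C)) ^ r ≤ s1 →
      c' * (x ^ 2) ^ (1 + r) ≤ rho x := by
    intro x hx0 hx1 hE
    have hx2 : 0 < x ^ 2 := by positivity
    have hs0 : 0 < (x ^ 2 / (2 * C)) ^ r := Real.rpow_pos_of_pos (by positivity) _
    have h1 := S.le_F ((x ^ 2 / (2 * C)) ^ r) x hx0.le hx1
    have h2 := hs _ hs0 hE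
    have h3 : ((x ^ 2 / (2 * C)) ^ r) ^ q = (x ^ 2 / (2 * C)) ^ r * (x ^ 2 / (2 * C)) := by
      have : ((x ^ 2 / (2 * C)) ^ r) ^ (q - 1) = x ^ 2 / (2 * C) := by
        rw [← Real.rpow_mul (by positivity), hr, one_div_mul_cancel hq1.ne', Real.rpow_one]
      have e : q = 1 + (q - 1) := by ring
      conv_lhs => rw [e]
      rw [Real.rpow_add hs0, Real.rpow_one, this]
    rw [h3] at h2
    have h4 : C * ((x ^ 2 / (2 * C)) ^ r * (x ^ 2 / (2 * C))) =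
        (x ^ 2 / (2 * C)) ^ r * x ^ 2 / 2 := by
      field_simp
    rw [h4] at h2
    have h5 : c' * (x ^ 2) ^ (1 + r) = (x ^ 2 / (2 * C)) ^ r * x ^ 2 / 2 := by
      rw [Real.rpow_add hx2, Real.rpow_one, Real.div_rpow hx2.le (by positivity), hc',
        Real.rpow_neg (by positivity)]
      field_simp
    rw [h5]
    linarith
  refine ⟨c', hc'0, ?_⟩
  have hE : ∀ᶠ x in 𝓝[>] (0 : ℝ), (2 * C) ^ (-r) * x ^ (2 * r) ≤ s1 := by
    have h1 : Tendsto (fun x : ℝ => (2 * C) ^ (-r) * x ^ (2 * r)) (𝓝[>] 0)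
        (𝓝 ((2 * C) ^ (-r) * 0)) := (rpow_zero_lim (by positivity)).const_mul _
    rw [mul_zero] at h1
    exact h1.eventually_le_const hs1
  filter_upwards [ev_one, ev_le (show (0 : ℝ) < 1 / 2 by norm_num), hE] with x ⟨hx0, _⟩ hx1 hE
  have e : (x ^ 2 / (2 * C)) ^ r = (2 * C) ^ (-r) * x ^ (2 * r) := by
    rw [Real.div_rpow (by positivity) (by positivity), Real.rpow_neg (by positivity),
      ← Real.rpow_natCast x 2, ← Real.rpow_mul hx0.le]
    push_cast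
    field_simp
  have h1 := hrho x hx0 hx1 (e.le.trans hE)
  have e2 : (x ^ 2) ^ (1 + r) = x ^ (1 / (1 - ν)) := by
    rw [hra, ← Real.rpow_natCast x 2, ← Real.rpow_mul hx0.le]
    push_cast
    rfl
  rwa [e2] at h1

/-- lower bounds of `rho` give lower bounds of `g` -/
theorem Sys.g_of_rho (S : Sys g rho F) {ν c' : ℝ} (hν : 1 / 2 < ν) (hν1 : ν < 1)
    (hc'0 : 0 < c') (h : ∀ᶠ x in 𝓝[>] (0 : ℝ), c' * x ^ (1 / (1 - ν)) ≤ rho x) :
    ∃ c, 0 < c ∧ ∀ E, 0 < E → E ≤ 1 → c * E ^ ν ≤ g E := by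
  have h1ν : 0 < 1 - ν := by linarith
  obtain ⟨x1, hx1, hx1', hrho⟩ := near2 h
  have hr1 := S.rho_pos x1 hx1 hx1'
  obtain ⟨d, hd⟩ : ∃ d, d = min (min 2 c') (2 * rho x1) := ⟨_, rfl⟩
  have hd0 : 0 < d := by
    rw [hd]
    exact lt_min (lt_min (by norm_num) hc'0) (by positivity)
  have hd1 : d ≤ 2 := by rw [hd]; exact (min_le_left _ _).trans (min_le_left _ _)
  have hd2 : d ≤ c' := by rw [hd]; exact (min_le_left _ _).trans (min_le_right _ _)
  have hd3 : d ≤ 2 * rho x1 := by rw [hd]; exact min_le_right _ _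
  refine ⟨d / 2, by positivity, ?_⟩
  intro E hE0 hE1
  have hEν : 0 < E ^ ν := Real.rpow_pos_of_pos hE0 _
  have hEν1 : E ^ ν ≤ 1 := Real.rpow_le_one hE0.le hE1 (by linarith)
  suffices h0 : d * E ^ ν ≤ 2 * g E by linarith
  apply S.dual E _ hE0
  intro x hx0 hx2
  rcases le_total x x1 with h1 | h1
  · rcases le_total x (E ^ (1 - ν)) with h2 | h2
    · have h3 : E ^ ν * x ≤ E := by
        calc E ^ ν * x ≤ E ^ ν * E ^ (1 - ν) := mul_le_mul_of_nonneg_left h2 hEν.le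
          _ = E := by
            rw [← Real.rpow_add hE0]
            norm_num
      have h4 := S.rho_nonneg hx0.le hx2
      have h5 : d * (E ^ ν * x) ≤ 2 * E := mul_le_mul hd1 h3 (by positivity) (by norm_num)
      linarith
    · have h3 := hrho x hx0 h1
      have h4 : E ^ ν * x ≤ x ^ (1 / (1 - ν)) := by
        have e1 : x ^ (1 / (1 - ν)) = x ^ (1 / (1 - ν) - 1) * x := by
          nth_rewrite 3 [← Real.rpow_one x]
          rw [← Real.rpow_add hx0, sub_add_cancel]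
        rw [e1]
        apply mul_le_mul_of_nonneg_right _ hx0.le
        have e2 : E ^ ν = (E ^ (1 - ν)) ^ (1 / (1 - ν) - 1) := by
          rw [← Real.rpow_mul hE0.le]
          congr 1
          field_simp
          ring
        rw [e2]
        apply Real.rpow_le_rpow (Real.rpow_pos_of_pos hE0 _).le h2
        rw [sub_nonneg, le_div_iff₀ h1ν]
        linarith
      have h5 : d * (E ^ ν * x) ≤ c' * x ^ (1 / (1 - ν)) :=
        mul_le_mul hd2 h4 (by positivity) hc'0.le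
      linarith
  · have h2 := S.rho_mono hx1.le h1 hx2
    have h3 : E ^ ν * x ≤ 1 * (1 / 2) := mul_le_mul hEν1 hx2 hx0.le (by norm_num)
    have h4 : d * (E ^ ν * x) ≤ (2 * rho x1) * (1 * (1 / 2)) :=
      mul_le_mul hd3 h3 (by positivity) (by positivity)
    linarith

/-- upper bounds of `F` give lower bounds of `g` -/
theorem Sys.g_lower (S : Sys g rho F) {ν C : ℝ} (hν : 1 / 2 < ν) (hν1 : ν < 1)
    (hC : 0 < C) (h : ∀ᶠ s in 𝓝[>] (0 : ℝ), F s ≤ C * s ^ (1 / (2 * ν - 1))) :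
    ∃ c, 0 < c ∧ ∀ E, 0 < E → E ≤ 1 → c * E ^ ν ≤ g E := by
  obtain ⟨c', hc', h1⟩ := S.rho_of_F hν hν1 hC h
  exact S.g_of_rho hν hν1 hc' h1

end Pool.Agent.H557.IT
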