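import Pool.Agent.H557.IT.Abs2

/-!
Limits of exponents.
-/

set_option autoImplicit false

open Filter Topology Set

namespace Pool.Agent.H557.IT

variable {g rho F : ℝ → ℝ}

theorem exp_iff {f : ℝ → ℝ} (hf : ∀ s, 0 < s → 0 ≤ f s) {a : ℝ} (ha : 0 < a) :
    Tendsto (fun s => Real.log (f s) / Real.log s) (𝓝[>] 0) (𝓝 a) ↔
      ∀ ε : ℝ, 0 < ε → ∀ᶠ s in 𝓝[>] (0 : ℝ), s ^ (a + ε) ≤ f s ∧ f s ≤ s ^ (a - ε) := by
  constructor
  · intro h ε hε
    filter_upwards [ev_one, h.eventually_lt_const (show a < a + ε by linarith),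
      h.eventually_const_lt (show a - ε < a by linarith), h.eventually_const_lt ha] with
      s ⟨h0, h1⟩ h2 h3 h4
    have hl : Real.log s < 0 := Real.log_neg h0 h1
    have hfs : 0 < f s := by
      rcases (hf s h0).eq_or_lt with h5 | h5
      · rw [← h5, Real.log_zero, zero_div] at h4
        exact absurd h4 (lt_irrefl 0)
      · exact h5
    rw [div_lt_iff_of_neg hl] at h2
    rw [lt_div_iff_of_neg hl] at h3
    rw [Real.rpow_def_of_pos h0, Real.rpow_def_of_pos h0]
    constructor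
    · rw [← Real.le_log_iff_exp_le hfs]
      linarith
    · rw [← Real.log_le_iff_le_exp hfs]
      linarith
  · intro h
    rw [Metric.tendsto_nhds]
    intro ε hε
    filter_upwards [ev_one, h (ε / 2) (by linarith)] with s ⟨h0, h1⟩ ⟨h2, h3⟩
    have hl : Real.log s < 0 := Real.log_neg h0 h1
    have hfs : 0 < f s := (Real.rpow_pos_of_pos h0 _).trans_le h2
    rw [Real.rpow_def_of_pos h0, ← Real.le_log_iff_exp_le hfs] at h2
    rw [Real.rpow_def_of_pos h0, ← Real.log_le_iff_le_exp hfs] at h3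
    rw [Real.dist_eq, abs_lt]
    constructor
    · rw [lt_sub_iff_add_lt, lt_div_iff_of_neg hl]
      nlinarith
    · rw [sub_lt_iff_lt_add, div_lt_iff_of_neg hl]
      nlinarith

theorem ev_small {c δ : ℝ} (hc : 0 < c) (hδ : 0 < δ) : ∀ᶠ s in 𝓝[>] (0 : ℝ), s ^ δ ≤ c :=
  (rpow_zero_lim hδ).eventually_le_const hc

/-- two-sided bounds of `F` give an upper bound of `g` -/
theorem Sys.g_upper (S : Sys g rho F) {q ε : ℝ} (hq : 1 < q)
    (h1 : ∀ᶠ s in 𝓝[>] (0 : ℝ), s ^ (q + ε) ≤ F s)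
    (h2 : ∀ᶠ s in 𝓝[>] (0 : ℝ), F s ≤ s ^ (q - ε)) :
    ∃ C, 0 < C ∧ ∀ᶠ E in 𝓝[>] (0 : ℝ), g E ≤ C * E ^ ((q + 1 - ε) / (2 * q)) := by
  have hq0 : 0 < q := by linarith
  have h2' : ∀ᶠ s in 𝓝[>] (0 : ℝ), F (2 * s) ≤ (2 * s) ^ (q - ε) := by
    have ht : Tendsto (fun s : ℝ => 2 * s) (𝓝[>] 0) (𝓝[>] 0) := by
      apply tendsto_nhdsWithin_iff.2
      constructor
      · have : Tendsto (fun s : ℝ => 2 * s) (𝓝 0) (𝓝 (2 * 0)) := tendsto_id.const_mul 2
        rw [mul_zero] at this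
        exact this.mono_left nhdsWithin_le_nhds
      · filter_upwards [eventually_mem_nhdsWithin] with s hs
        have : 0 < s := hs
        show 0 < 2 * s
        linarith
    exact ht.eventually h2
  have hs : Tendsto (fun E : ℝ => E ^ (1 / q)) (𝓝[>] 0) (𝓝[>] 0) := by
    apply tendsto_nhdsWithin_iff.2
    refine ⟨rpow_zero_lim (by positivity), ?_⟩
    filter_upwards [eventually_mem_nhdsWithin] with s hs
    exact Real.rpow_pos_of_pos hs _
  refine ⟨2 ^ ((q - ε) / 2) + 1, by positivity, ?_⟩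
  filter_upwards [eventually_mem_nhdsWithin, hs.eventually h1, hs.eventually h2',
    hs.eventually eventually_mem_nhdsWithin] with E hE h3 h4 h5
  have hE0 : 0 < E := hE
  obtain ⟨s, hsd⟩ : ∃ s, s = E ^ (1 / q) := ⟨_, rfl⟩
  rw [← hsd] at h3 h4 h5
  have hs0 : 0 < s := h5
  have hEs : E = s ^ q := by
    rw [hsd, ← Real.rpow_mul hE0.le, one_div_mul_cancel hq0.ne', Real.rpow_one]
  have hpow : E ^ ((q + 1 - ε) / (2 * q)) = s ^ ((q + 1 - ε) / 2) := by
    rw [hEs, ← Real.rpow_mul hs0.le]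
    congr 1
    field_simp
  rw [hpow]
  obtain ⟨x, hx0, hx1, hx⟩ := S.F_le s
  have hr := S.rho_nonneg hx0 hx1
  have hF0 : 0 < F s := (Real.rpow_pos_of_pos hs0 _).trans_le h3
  have hxp : 0 < x := by
    rcases hx0.eq_or_lt with h0 | h0
    · rw [← h0, S.rho_zero] at hx
      norm_num at hx
      linarith
    · exact h0
  have h6 : s ^ (q + ε) ≤ s * x ^ 2 := by linarith
  have h7 := S.le_F (2 * s) x hx0 hx1
  have h8 : s * x ^ 2 ≤ (2 * s) ^ (q - ε) := by linarith
  -- bounds of x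
  have h9 : s ^ ((q + ε - 1) / 2) ≤ x := by
    have e1 : s ^ (q + ε) = s * (s ^ ((q + ε - 1) / 2)) ^ 2 := by
      rw [← Real.rpow_natCast (s ^ ((q + ε - 1) / 2)) 2, ← Real.rpow_mul hs0.le]
      nth_rewrite 2 [← Real.rpow_one s]
      rw [← Real.rpow_add hs0]
      congr 1
      push_cast
      ring
    rw [e1] at h6
    have := le_of_mul_le_mul_left h6 hs0
    exact (pow_le_pow_iff_left₀ (Real.rpow_pos_of_pos hs0 _).le hx0 two_ne_zero).1 this
  have h10 : x ≤ 2 ^ ((q - ε) / 2) * s ^ ((q - ε - 1) / 2) := by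
    have e1 : (2 * s) ^ (q - ε) = s * (2 ^ ((q - ε) / 2) * s ^ ((q - ε - 1) / 2)) ^ 2 := by
      rw [Real.mul_rpow (by norm_num) hs0.le, mul_pow,
        ← Real.rpow_natCast (s ^ ((q - ε - 1) / 2)) 2, ← Real.rpow_mul hs0.le,
        ← Real.rpow_natCast ((2 : ℝ) ^ ((q - ε) / 2)) 2, ← Real.rpow_mul (by norm_num)]
      have e2 : s ^ (q - ε) = s * s ^ ((q - ε - 1) / 2 * (2 : ℕ)) := by
        nth_rewrite 2 [← Real.rpow_one s]
        rw [← Real.rpow_add hs0]
        congr 1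
        push_cast
        ring
      have e3 : (q - ε) / 2 * ((2 : ℕ) : ℝ) = q - ε := by
        push_cast
        ring
      rw [e2, e3]
      ring
    rw [e1] at h8
    have := le_of_mul_le_mul_left h8 hs0
    exact (pow_le_pow_iff_left₀ hx0 (by positivity) two_ne_zero).1 this
  -- conclusion
  have h11 := S.le_rho x hx0 hx1 E hE0
  have h12 : x * g E ≤ s * x ^ 2 / 2 + E := by linarith
  have h13 : s * x / 2 ≤ 2 ^ ((q - ε) / 2) * s ^ ((q + 1 - ε) / 2) := by
    have h14 := mul_le_mul_of_nonneg_left h10 hs0.le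
    have e1 : s * (2 ^ ((q - ε) / 2) * s ^ ((q - ε - 1) / 2)) =
        2 ^ ((q - ε) / 2) * s ^ ((q + 1 - ε) / 2) := by
      have : s ^ ((q + 1 - ε) / 2) = s * s ^ ((q - ε - 1) / 2) := by
        nth_rewrite 2 [← Real.rpow_one s]
        rw [← Real.rpow_add hs0]
        congr 1
        ring
      rw [this]
      ring
    rw [e1] at h14
    have : 0 ≤ s * x := by positivity
    linarith
  have h14 : E ≤ s ^ ((q + 1 - ε) / 2) * x := by
    calc E = s ^ ((q + 1 - ε) / 2) * s ^ ((q + ε - 1) / 2) := by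
          rw [hEs, ← Real.rpow_add hs0]
          congr 1
          ring
      _ ≤ _ := mul_le_mul_of_nonneg_left h9 (Real.rpow_pos_of_pos hs0 _).le
  have h15 : x * g E ≤ x * ((2 ^ ((q - ε) / 2) + 1) * s ^ ((q + 1 - ε) / 2)) := by
    have h16 := mul_le_mul_of_nonneg_right h13 hx0
    nlinarith
  exact le_of_mul_le_mul_left h15 hxp

/-- **the exponents** -/
theorem Sys.exponent (S : Sys g rho F) {ν : ℝ} (hν : 1 / 2 < ν) (hν1 : ν < 1) :
    Tendsto (fun E => Real.log (g E) / Real.log E) (𝓝[>] 0) (𝓝 ν) ↔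
      Tendsto (fun s => Real.log (F s) / Real.log s) (𝓝[>] 0) (𝓝 (1 / (2 * ν - 1))) := by
  have h1ν : 0 < 1 - ν := by linarith
  have h2ν : 0 < 2 * ν - 1 := by linarith
  rw [exp_iff (fun E hE => (S.gpos E hE).le) (by linarith : 0 < ν),
    exp_iff (fun s _ => S.F_nonneg s) (by positivity)]
  have key : ∀ c δ : ℝ, 0 < c → 0 < δ → ∀ e : ℝ, ∀ᶠ s in 𝓝[>] (0 : ℝ), s ^ (e + δ) ≤ c * s ^ e := by
    intro c δ hc hδ e
    filter_upwards [ev_one, ev_small hc hδ] with s ⟨h0, _⟩ h1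
    rw [Real.rpow_add h0, mul_comm c]
    exact mul_le_mul_of_nonneg_left h1 (Real.rpow_pos_of_pos h0 _).le
  have key2 : ∀ c δ : ℝ, 0 < c → 0 < δ → ∀ e : ℝ, ∀ᶠ s in 𝓝[>] (0 : ℝ), c * s ^ e ≤ s ^ (e - δ) := by
    intro c δ hc hδ e
    filter_upwards [ev_one, key (1 / c) δ (by positivity) hδ (e - δ)] with s ⟨h0, _⟩ h1
    rw [sub_add_cancel, one_div, inv_mul_eq_div, le_div_iff₀ hc] at h1
    linarith
  constructor
  · intro h ε hε
    have hL : ∀ᶠ s in 𝓝[>] (0 : ℝ), s ^ (1 / (2 * ν - 1) + ε) ≤ F s := by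
      -- choose an exponent below
      obtain ⟨q', hq'⟩ : ∃ q', q' = 1 / (2 * ν - 1) + ε / 2 := ⟨_, rfl⟩
      have hqν : 1 / (2 * ν - 1) < q' := by rw [hq']; linarith
      have hq'0 : 0 < q' := lt_trans (by positivity) hqν
      obtain ⟨ν', hν'⟩ : ∃ ν', ν' = (1 + 1 / q') / 2 := ⟨_, rfl⟩
      have e1 : 2 * ν' - 1 = 1 / q' := by rw [hν']; ring
      have e2 : 1 / (2 * ν' - 1) = q' := by rw [e1, one_div_one_div]
      have h3 : 1 / q' < 2 * ν - 1 := by
        rw [div_lt_iff₀ hq'0]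
        rw [div_lt_iff₀ h2ν] at hqν
        linarith
      have h4 : 0 < 1 / q' := by positivity
      have h5 : ν' < ν := by linarith
      obtain ⟨E1, hE1, h6⟩ := near (h (ν - ν') (by linarith))
      obtain ⟨c, hc, h7⟩ := S.F_lower (ν := ν') (C := 1) (E1 := E1) (k := 0) (by linarith)
        (by linarith) one_pos hE1 (by
          intro E hE0 hE
          have := (h6 E hE0 hE).2
          rw [sub_sub_cancel] at this
          rw [pow_zero, one_mul, mul_one]
          exact this)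
      rw [e2] at h7
      filter_upwards [h7, key c (ε / 2) hc (by linarith) q'] with s h8 h9
      rw [mul_zero, pow_zero, div_one] at h8
      have e3 : 1 / (2 * ν - 1) + ε = q' + ε / 2 := by rw [hq']; ring
      rw [e3]
      exact h9.trans h8
    have hU : ∀ᶠ s in 𝓝[>] (0 : ℝ), F s ≤ s ^ (1 / (2 * ν - 1) - ε) := by
      obtain ⟨ν', hν', hν'1, hq'⟩ : ∃ ν', ν < ν' ∧ ν' < 1 ∧
          1 / (2 * ν - 1) - ε / 2 < 1 / (2 * ν' - 1) := by
        have hcont : Tendsto (fun t : ℝ => 1 / (2 * t - 1)) (𝓝[>] ν) (𝓝 (1 / (2 * ν - 1))) := by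
          have : ContinuousAt (fun t : ℝ => 1 / (2 * t - 1)) ν := by
            have h0 : ContinuousAt (fun t : ℝ => 2 * t - 1) ν := by fun_prop
            exact ContinuousAt.div (f := fun _ : ℝ => (1 : ℝ)) continuousAt_const h0 h2ν.ne'
          exact this.tendsto.mono_left nhdsWithin_le_nhds
        obtain ⟨t, h3, h4, h5⟩ := ((hcont.eventually_const_lt
          (show 1 / (2 * ν - 1) - ε / 2 < 1 / (2 * ν - 1) by linarith)).and
          ((eventually_mem_nhdsWithin).and (mem_nhdsWithin_of_mem_nhds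
            (Iio_mem_nhds hν1)))).exists
        exact ⟨t, h4, h5, h3⟩
      obtain ⟨E1, hE1, h6⟩ := near (h (ν' - ν) (by linarith))
      obtain ⟨C, hC, h7⟩ := S.F_upper (ν := ν') (c := 1) (E1 := E1) (by linarith) hν'1 one_pos hE1
        (by
          intro E hE0 hE
          have := (h6 E hE0 hE).1
          rw [add_sub_cancel] at this
          rw [one_mul]
          exact this)
      filter_upwards [ev_one, h7, key2 C (ε / 2) hC (by linarith) (1 / (2 * ν' - 1))] with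
        s ⟨h0, h1⟩ h8 h9
      refine h8.trans (h9.trans ?_)
      exact Real.rpow_le_rpow_of_exponent_ge h0 h1.le (by linarith)
    exact hL.and hU
  · intro h ε hε
    have hq1 : 1 < 1 / (2 * ν - 1) := by
      rw [lt_div_iff₀ h2ν]
      linarith
    have hL : ∀ᶠ s in 𝓝[>] (0 : ℝ), s ^ (ν + ε) ≤ g s := by
      obtain ⟨ν', hν'⟩ : ∃ ν', ν' = ν + min (ε / 2) ((1 - ν) / 2) := ⟨_, rfl⟩
      have h3 : ν' ≤ ν + ε / 2 := by
        rw [hν']
        linarith [min_le_left (ε / 2) ((1 - ν) / 2)]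
      have h4 : ν' < 1 := by
        rw [hν']
        linarith [min_le_right (ε / 2) ((1 - ν) / 2)]
      have h5 : ν < ν' := by
        rw [hν']
        linarith [lt_min (show 0 < ε / 2 by linarith) (show 0 < (1 - ν) / 2 by linarith)]
      have h6 : 1 / (2 * ν' - 1) < 1 / (2 * ν - 1) :=
        one_div_lt_one_div_of_lt h2ν (by linarith)
      have h7 := h (1 / (2 * ν - 1) - 1 / (2 * ν' - 1)) (by linarith)
      obtain ⟨c, hc, h8⟩ := S.g_lower (ν := ν') (C := 1) (by linarith) h4 one_pos (by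
        filter_upwards [h7] with s hs
        have := hs.2
        rw [sub_sub_cancel] at this
        rw [one_mul]
        exact this)
      filter_upwards [ev_one, key c (ε / 2) hc (by linarith) ν'] with s ⟨h0, h1⟩ h9
      refine le_trans ?_ (h8 s h0 h1.le)
      refine le_trans ?_ h9
      exact Real.rpow_le_rpow_of_exponent_ge h0 h1.le (by linarith)
    have hU : ∀ᶠ s in 𝓝[>] (0 : ℝ), g s ≤ s ^ (ν - ε) := by
      obtain ⟨q, hq⟩ : ∃ q, q = 1 / (2 * ν - 1) := ⟨_, rfl⟩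
      rw [← hq] at h hq1
      have hq0 : 0 < q := by linarith
      have hε' : 0 < ε * q := by positivity
      obtain ⟨C, hC, h3⟩ := S.g_upper hq1 ((h _ hε').mono fun _ h => h.1)
        ((h _ hε').mono fun _ h => h.2)
      have e1 : (q + 1 - ε * q) / (2 * q) = ν - ε / 2 := by
        have : q * (2 * ν - 1) = 1 := by rw [hq]; field_simp
        field_simp
        linear_combination (-1 : ℝ) * this
      rw [e1] at h3
      filter_upwards [h3, key2 C (ε / 2) hC (by linarith) (ν - ε / 2)] with s h4 h5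
      refine h4.trans (h5.trans ?_)
      rw [sub_sub, add_halves]
    exact hL.and hU

end Pool.Agent.H557.IT
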