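import Pool.Agent.H557.IT.Abs3

/-!
Upper bounds of the rate function with logarithms: lower bounds of `F` and upper bounds of `g`.
-/

set_option autoImplicit false

open Filter Topology Set

namespace Pool.Agent.H557.IT

variable {g rho F : ℝ → ℝ}

theorem log_inv_lim : Tendsto (fun s : ℝ => Real.log (1 / s)) (𝓝[>] 0) atTop := by
  have := Real.tendsto_log_nhdsGT_zero
  refine (tendsto_neg_atBot_atTop.comp this).congr ?_
  intro x
  simp [Real.log_inv]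

theorem small_delta2 {a : ℝ} (ha : 2 < a) {C : ℝ} {D : ℝ} (j : ℕ) :
    ∃ δ : ℝ, 0 < δ ∧ δ < 1 ∧ C * δ ^ a * (Real.log (1 / δ) + D) ^ j ≤ δ ^ 2 / 2 := by
  obtain ⟨t, ht⟩ : ∃ t, t = a - 2 := ⟨_, rfl⟩
  have ht0 : 0 < t := by linarith
  obtain ⟨τ, hτ⟩ : ∃ τ : ℝ, τ = t / (j + 1) := ⟨_, rfl⟩
  have hτ0 : 0 < τ := by rw [hτ]; positivity
  have l1 : Tendsto (fun x : ℝ => x ^ τ) (𝓝[>] 0) (𝓝 0) := rpow_zero_lim hτ0
  have l2 : Tendsto (fun x : ℝ => x ^ τ * (Real.log (1 / x) + D)) (𝓝[>] 0) (𝓝 0) := by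
    have h1 := tendsto_log_mul_rpow_nhdsGT_zero hτ0
    have h2 : Tendsto (fun x : ℝ => -(Real.log x * x ^ τ) + D * x ^ τ) (𝓝[>] 0)
        (𝓝 (-0 + D * 0)) := h1.neg.add (l1.const_mul D)
    rw [mul_zero, neg_zero, add_zero] at h2
    refine h2.congr ?_
    intro x
    rw [one_div, Real.log_inv]
    ring
  have l3 : Tendsto (fun x : ℝ => C * ((x ^ τ * (Real.log (1 / x) + D)) ^ j * x ^ τ)) (𝓝[>] 0)
      (𝓝 (C * (0 ^ j * 0))) := ((l2.pow j).mul l1).const_mul C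
  rw [mul_zero, mul_zero] at l3
  obtain ⟨δ, h1, h2, h3⟩ := ((l3.eventually_le_const (show (0 : ℝ) < 1 / 2 by norm_num)).and
    ev_one).exists
  refine ⟨δ, h2, h3, ?_⟩
  have e1 : C * δ ^ a * (Real.log (1 / δ) + D) ^ j =
      C * ((δ ^ τ * (Real.log (1 / δ) + D)) ^ j * δ ^ τ) * δ ^ 2 := by
    have e2 : (δ ^ τ) ^ j * δ ^ τ = δ ^ t := by
      rw [← pow_succ, ← Real.rpow_natCast, ← Real.rpow_mul h2.le]
      congr 1
      rw [hτ]
      push_cast
      field_simp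
    have e3 : δ ^ a = δ ^ t * δ ^ 2 := by
      rw [← Real.rpow_natCast δ 2, ← Real.rpow_add h2, ht]
      congr 1
      push_cast
      ring
    rw [mul_pow, e3, ← e2]
    ring
  rw [e1]
  have := mul_le_mul_of_nonneg_right h1 (sq_nonneg δ)
  linarith

/-- upper bounds of `rho` give lower bounds of `F` -/
theorem Sys.F_lower_of_rho (S : Sys g rho F) {ν C : ℝ} {j : ℕ} (hν : 1 / 2 < ν) (hν1 : ν < 1)
    (hC : 0 < C)
    (h : ∀ᶠ x in 𝓝[>] (0 : ℝ), rho x ≤ C * x ^ (1 / (1 - ν)) * Real.log (1 / x) ^ j) :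
    ∃ c, 0 < c ∧ ∀ᶠ s in 𝓝[>] (0 : ℝ),
      c * s ^ (1 / (2 * ν - 1)) / Real.log (1 / s) ^ (j * (1 / (2 * ν - 1) - 1) : ℝ) ≤ F s := by
  have h1ν : 0 < 1 - ν := by linarith
  have h2ν : 0 < 2 * ν - 1 := by linarith
  obtain ⟨a, ha⟩ : ∃ a, a = 1 / (1 - ν) := ⟨_, rfl⟩
  rw [← ha] at h
  have ha2 : 2 < a := by
    rw [ha, lt_div_iff₀ h1ν]
    linarith
  have ha0 : 0 < a := by linarith
  obtain ⟨q, hq⟩ : ∃ q, q = 1 / (2 * ν - 1) := ⟨_, rfl⟩
  have hq0 : 0 < q := by rw [hq]; positivity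
  obtain ⟨b, hb⟩ : ∃ b, b = (1 - ν) / (2 * ν - 1) := ⟨_, rfl⟩
  have hb0 : 0 < b := by rw [hb]; positivity
  have hab : a * b = q := by
    rw [ha, hb, hq]
    field_simp
  have h2b : 1 + 2 * b = q := by
    rw [hb, hq]
    field_simp
    ring
  obtain ⟨x1, hx1, hx1', hrho⟩ := near2 h
  obtain ⟨δ, hδ0, hδ1, hδ⟩ := small_delta2 (C := C) ha2 (D := b + j * b) j
  have hlδ : 0 ≤ Real.log (1 / δ) := by
    apply Real.log_nonneg
    rw [le_div_iff₀ hδ0]
    linarith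
  obtain ⟨B, hB⟩ : ∃ B, B = Real.log (1 / δ) + (b + j * b) := ⟨_, rfl⟩
  have hB0 : 0 < B := by rw [hB]; positivity
  rw [← hB] at hδ
  refine ⟨δ ^ 2 / 2, by positivity, ?_⟩
  filter_upwards [ev_one, log_inv_lim.eventually (eventually_ge_atTop 1),
    (rpow_zero_lim hb0).eventually_le_const hx1] with s ⟨hs, hs1⟩ hL hsb
  obtain ⟨L, hLd⟩ : ∃ L, L = Real.log (1 / s) := ⟨_, rfl⟩
  rw [← hLd] at hL
  rw [← hLd, ← hq]
  have hL0 : 0 < L := by linarith
  obtain ⟨w, hw⟩ : ∃ w, w = L ^ (-(j * b)) := ⟨_, rfl⟩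
  have hw0 : 0 < w := by rw [hw]; exact Real.rpow_pos_of_pos hL0 _
  have hw1 : w ≤ 1 := by
    rw [hw]
    apply Real.rpow_le_one_of_one_le_of_nonpos hL
    have : (0 : ℝ) ≤ j * b := by positivity
    linarith
  have hsb0 : 0 < s ^ b := Real.rpow_pos_of_pos hs _
  obtain ⟨x, hx⟩ : ∃ x, x = δ * s ^ b * w := ⟨_, rfl⟩
  have hx0 : 0 < x := by rw [hx]; positivity
  have hxs : x ≤ s ^ b := by
    rw [hx]
    calc δ * s ^ b * w ≤ 1 * s ^ b * 1 := by
          apply mul_le_mul (mul_le_mul_of_nonneg_right hδ1.le hsb0.le) hw1 hw0.le (by positivity)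
      _ = s ^ b := by ring
  have hxx1 : x ≤ x1 := hxs.trans hsb
  have hLx0 : 0 ≤ Real.log (1 / x) := by
    apply Real.log_nonneg
    rw [le_div_iff₀ hx0]
    linarith
  have hLx : Real.log (1 / x) ≤ B * L := by
    have e1 : Real.log (1 / x) = Real.log (1 / δ) + b * L + j * b * Real.log L := by
      rw [hx, hLd, one_div, Real.log_inv, Real.log_mul (by positivity) hw0.ne',
        Real.log_mul hδ0.ne' hsb0.ne', Real.log_rpow hs, hw, Real.log_rpow hL0, one_div,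
        Real.log_inv, one_div, Real.log_inv, hLd, one_div, Real.log_inv]
      ring
    have h1 : Real.log L ≤ L := (Real.log_le_sub_one_of_pos hL0).trans (by linarith)
    have h2 : j * b * Real.log L ≤ j * b * L := mul_le_mul_of_nonneg_left h1 (by positivity)
    have h3 : Real.log (1 / δ) * 1 ≤ Real.log (1 / δ) * L := mul_le_mul_of_nonneg_left hL hlδ
    rw [e1, hB]
    linarith
  have hLk : Real.log (1 / x) ^ j ≤ B ^ j * L ^ j := by
    rw [← mul_pow]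
    exact pow_le_pow_left₀ hLx0 hLx j
  have h1 := hrho x hx0 hxx1
  have e1 : x ^ a = δ ^ a * (s ^ q * w ^ a) := by
    rw [hx, Real.mul_rpow (by positivity) hw0.le, Real.mul_rpow hδ0.le hsb0.le,
      ← Real.rpow_mul hs.le, mul_comm b a, hab]
    ring
  have hwL : w ^ a * L ^ j = w ^ 2 := by
    rw [hw, ← Real.rpow_natCast L j, ← Real.rpow_mul hL0.le,
      ← Real.rpow_add hL0, ← Real.rpow_natCast (L ^ (-(j * b))) 2, ← Real.rpow_mul hL0.le]
    congr 1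
    push_cast
    linear_combination (-(j : ℝ)) * hab + (j : ℝ) * h2b
  have h2 : rho x ≤ δ ^ 2 / 2 * (s ^ q * w ^ 2) := by
    calc rho x ≤ C * x ^ a * Real.log (1 / x) ^ j := h1
      _ ≤ C * x ^ a * (B ^ j * L ^ j) := by
          apply mul_le_mul_of_nonneg_left hLk
          have := Real.rpow_pos_of_pos hx0 a
          positivity
      _ = (C * δ ^ a * B ^ j) * (s ^ q * (w ^ a * L ^ j)) := by rw [e1]; ring
      _ = (C * δ ^ a * B ^ j) * (s ^ q * w ^ 2) := by rw [hwL]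
      _ ≤ _ := by
          apply mul_le_mul_of_nonneg_right hδ
          have := Real.rpow_pos_of_pos hs q
          positivity
  have h3 := S.le_F s x hx0.le (hxx1.trans hx1')
  have e2 : s * x ^ 2 = δ ^ 2 * (s ^ q * w ^ 2) := by
    have : s ^ q = s * (s ^ b) ^ 2 := by
      rw [← h2b, Real.rpow_add hs, Real.rpow_one, mul_comm 2 b, Real.rpow_mul hs.le]
      norm_num
    rw [this, hx]
    ring
  have e3 : δ ^ 2 / 2 * s ^ q / L ^ (j * (q - 1) : ℝ) = δ ^ 2 / 2 * (s ^ q * w ^ 2) := by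
    have : w ^ 2 = (L ^ (j * (q - 1) : ℝ))⁻¹ := by
      rw [hw, ← Real.rpow_natCast (L ^ (-(j * b))) 2, ← Real.rpow_mul hL0.le,
        ← Real.rpow_neg hL0.le]
      congr 1
      push_cast
      rw [← h2b]
      ring
    rw [this]
    ring
  rw [e3]
  linarith

/-- upper bounds of `rho` give upper bounds of `g` -/
theorem Sys.g_upper_of_rho (S : Sys g rho F) {ν C : ℝ} {j : ℕ} (hν : 1 / 2 < ν) (hν1 : ν < 1)
    (hC : 0 < C)
    (h : ∀ᶠ x in 𝓝[>] (0 : ℝ), rho x ≤ C * x ^ (1 / (1 - ν)) * Real.log (1 / x) ^ j) :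
    ∃ C', 0 < C' ∧ ∀ᶠ E in 𝓝[>] (0 : ℝ),
      g E ≤ C' * E ^ ν * Real.log (1 / E) ^ (j * (1 - ν) : ℝ) := by
  have h1ν : 0 < 1 - ν := by linarith
  obtain ⟨x1, hx1, hx1', hrho⟩ := near2 h
  refine ⟨(C * ((1 - ν) * (1 + j)) ^ j + 2) / 2, by positivity, ?_⟩
  filter_upwards [ev_one, log_inv_lim.eventually (eventually_ge_atTop 1),
    (rpow_zero_lim h1ν).eventually_le_const hx1] with E ⟨hE, hE1⟩ hL hsb
  obtain ⟨L, hLd⟩ : ∃ L, L = Real.log (1 / E) := ⟨_, rfl⟩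
  rw [← hLd] at hL
  rw [← hLd]
  have hL0 : 0 < L := by linarith
  obtain ⟨w, hw⟩ : ∃ w, w = L ^ (-(j * (1 - ν))) := ⟨_, rfl⟩
  have hw0 : 0 < w := by rw [hw]; exact Real.rpow_pos_of_pos hL0 _
  have hw1 : w ≤ 1 := by
    rw [hw]
    apply Real.rpow_le_one_of_one_le_of_nonpos hL
    have : (0 : ℝ) ≤ j * (1 - ν) := by positivity
    linarith
  have hEb0 : 0 < E ^ (1 - ν) := Real.rpow_pos_of_pos hE _
  have hEν : 0 < E ^ ν := Real.rpow_pos_of_pos hE _
  obtain ⟨x, hx⟩ : ∃ x, x = E ^ (1 - ν) * w := ⟨_, rfl⟩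
  have hx0 : 0 < x := by rw [hx]; positivity
  have hxx1 : x ≤ x1 := by
    rw [hx]
    exact (mul_le_of_le_one_right hEb0.le hw1).trans hsb
  have hLx0 : 0 ≤ Real.log (1 / x) := by
    apply Real.log_nonneg
    rw [le_div_iff₀ hx0]
    linarith
  have hLx : Real.log (1 / x) ≤ ((1 - ν) * (1 + j)) * L := by
    have e1 : Real.log (1 / x) = (1 - ν) * L + j * (1 - ν) * Real.log L := by
      rw [hx, hLd, one_div, Real.log_inv, Real.log_mul hEb0.ne' hw0.ne',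
        Real.log_rpow hE, hw, Real.log_rpow hL0, one_div, Real.log_inv, hLd, one_div, Real.log_inv]
      ring
    have h1 : Real.log L ≤ L := (Real.log_le_sub_one_of_pos hL0).trans (by linarith)
    have h2 : j * (1 - ν) * Real.log L ≤ j * (1 - ν) * L :=
      mul_le_mul_of_nonneg_left h1 (by positivity)
    rw [e1]
    linarith
  have hLk : Real.log (1 / x) ^ j ≤ ((1 - ν) * (1 + j)) ^ j * L ^ j := by
    rw [← mul_pow]
    exact pow_le_pow_left₀ hLx0 hLx j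
  have h1 := hrho x hx0 hxx1
  have e1 : x ^ (1 / (1 - ν)) = E * (L ^ j)⁻¹ := by
    rw [hx, Real.mul_rpow hEb0.le hw0.le, ← Real.rpow_mul hE.le, mul_one_div_cancel h1ν.ne',
      Real.rpow_one, hw, ← Real.rpow_mul hL0.le]
    congr 1
    rw [← Real.rpow_natCast L j, ← Real.rpow_neg hL0.le]
    congr 1
    field_simp
  have hLj : 0 < L ^ j := by positivity
  have h2 : rho x ≤ C * ((1 - ν) * (1 + j)) ^ j * E := by
    calc rho x ≤ C * x ^ (1 / (1 - ν)) * Real.log (1 / x) ^ j := h1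
      _ ≤ C * x ^ (1 / (1 - ν)) * (((1 - ν) * (1 + j)) ^ j * L ^ j) := by
          apply mul_le_mul_of_nonneg_left hLk
          have := Real.rpow_pos_of_pos hx0 (1 / (1 - ν))
          positivity
      _ = C * ((1 - ν) * (1 + j)) ^ j * E := by
          rw [e1]
          field_simp
  have h3 := S.le_rho x hx0.le (hxx1.trans hx1') E hE
  have h4 : x * g E ≤ (C * ((1 - ν) * (1 + j)) ^ j + 2) / 2 * E := by linarith
  have e4 : E = x * (E ^ ν * L ^ (j * (1 - ν) : ℝ)) := by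
    rw [hx, hw]
    have e5 : L ^ (-(j * (1 - ν)) : ℝ) * L ^ (j * (1 - ν) : ℝ) = 1 := by
      rw [← Real.rpow_add hL0, neg_add_cancel, Real.rpow_zero]
    have e6 : E ^ (1 - ν) * E ^ ν = E := by
      rw [← Real.rpow_add hE, sub_add_cancel, Real.rpow_one]
    calc E = (E ^ (1 - ν) * E ^ ν) * (L ^ (-(j * (1 - ν)) : ℝ) * L ^ (j * (1 - ν) : ℝ)) := by
          rw [e5, e6, mul_one]
      _ = _ := by ring
  have h5 : x * g E ≤ x * ((C * ((1 - ν) * (1 + j)) ^ j + 2) / 2 * E ^ ν *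
      L ^ (j * (1 - ν) : ℝ)) := by
    refine h4.trans (le_of_eq ?_)
    conv_lhs => rw [e4]
    ring
  exact le_of_mul_le_mul_left h5 hx0

end Pool.Agent.H557.IT
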