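import Pool.Agent.H557.IT.Abs4

/-!
The exponent of the rate function.
-/

set_option autoImplicit false

open Filter Topology Set

namespace Pool.Agent.H557.IT

variable {g rho F : ℝ → ℝ}

theorem pow_key {c δ : ℝ} (hc : 0 < c) (hδ : 0 < δ) (e : ℝ) :
    ∀ᶠ s in 𝓝[>] (0 : ℝ), s ^ (e + δ) ≤ c * s ^ e := by
  filter_upwards [ev_one, ev_small hc hδ] with s ⟨h0, _⟩ h1
  rw [Real.rpow_add h0, mul_comm c]
  exact mul_le_mul_of_nonneg_left h1 (Real.rpow_pos_of_pos h0 _).le

theorem pow_key2 {c δ : ℝ} (hc : 0 < c) (hδ : 0 < δ) (e : ℝ) :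
    ∀ᶠ s in 𝓝[>] (0 : ℝ), c * s ^ e ≤ s ^ (e - δ) := by
  filter_upwards [ev_one, pow_key (c := 1 / c) (by positivity) hδ (e - δ)] with s ⟨h0, _⟩ h1
  rw [sub_add_cancel, one_div, inv_mul_eq_div, le_div_iff₀ hc] at h1
  linarith

theorem cont_inv {ν : ℝ} (h : ν < 1) : ContinuousAt (fun t : ℝ => 1 / (1 - t)) ν := by
  have h1ν : 0 < 1 - ν := by linarith
  have h0 : ContinuousAt (fun t : ℝ => 1 - t) ν := by fun_prop
  exact ContinuousAt.div (f := fun _ : ℝ => (1 : ℝ)) continuousAt_const h0 h1ν.ne'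

theorem exists_below {ν ε : ℝ} (hν : 1 / 2 < ν) (hν1 : ν < 1) (hε : 0 < ε) :
    ∃ ν', 1 / 2 < ν' ∧ ν' < ν ∧ 1 / (1 - ν) - ε < 1 / (1 - ν') := by
  have hc := (cont_inv hν1).tendsto.mono_left (nhdsWithin_le_nhds (s := Iio ν))
  obtain ⟨t, h3, h4⟩ := ((hc.eventually_const_lt
    (show 1 / (1 - ν) - ε < 1 / (1 - ν) by linarith)).and (Ioo_mem_nhdsLT hν)).exists
  exact ⟨t, h4.1, h4.2, h3⟩

theorem exists_above {ν ε : ℝ} (hν1 : ν < 1) (hε : 0 < ε) :
    ∃ ν', ν < ν' ∧ ν' < 1 ∧ 1 / (1 - ν') < 1 / (1 - ν) + ε := by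
  have hc := (cont_inv hν1).tendsto.mono_left (nhdsWithin_le_nhds (s := Ioi ν))
  obtain ⟨t, h3, h4⟩ := ((hc.eventually_lt_const
    (show 1 / (1 - ν) < 1 / (1 - ν) + ε by linarith)).and (Ioo_mem_nhdsGT hν1)).exists
  exact ⟨t, h4.1, h4.2, h3⟩

/-- the exponents of `g` and of `rho`, with bounds instead of limits -/
theorem Sys.exponent_rho (S : Sys g rho F) {ν : ℝ} (hν : 1 / 2 < ν) (hν1 : ν < 1) :
    (∀ ε : ℝ, 0 < ε → ∀ᶠ s in 𝓝[>] (0 : ℝ), s ^ (ν + ε) ≤ g s ∧ g s ≤ s ^ (ν - ε)) ↔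
      ∀ ε : ℝ, 0 < ε → ∀ᶠ x in 𝓝[>] (0 : ℝ), x ^ (1 / (1 - ν) + ε) ≤ rho x ∧
        rho x ≤ x ^ (1 / (1 - ν) - ε) := by
  have h1ν : 0 < 1 - ν := by linarith
  constructor
  · intro h ε hε
    have hL : ∀ᶠ x in 𝓝[>] (0 : ℝ), x ^ (1 / (1 - ν) + ε) ≤ rho x := by
      obtain ⟨ν', h1, h2, h3⟩ := exists_above (ε := ε / 2) hν1 (by linarith)
      obtain ⟨E1, hE1, h6⟩ := near (h (ν' - ν) (by linarith))
      obtain ⟨c, hc, h7⟩ := S.rho_of_g (ν := ν') (c := 1) (E1 := E1) h2 one_pos hE1 (by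
        intro E hE0 hE
        have := (h6 E hE0 hE).1
        rw [add_sub_cancel] at this
        rw [one_mul]
        exact this)
      filter_upwards [ev_one, h7, pow_key hc (show 0 < ε / 2 by linarith) (1 / (1 - ν'))] with
        x ⟨h0, h01⟩ h8 h9
      refine le_trans ?_ (h9.trans h8)
      exact Real.rpow_le_rpow_of_exponent_ge h0 h01.le (by linarith)
    have hU : ∀ᶠ x in 𝓝[>] (0 : ℝ), rho x ≤ x ^ (1 / (1 - ν) - ε) := by
      obtain ⟨ν', h1, h2, h3⟩ := exists_below (ε := ε / 2) hν hν1 (by linarith)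
      obtain ⟨E1, hE1, h6⟩ := near (h (ν - ν') (by linarith))
      obtain ⟨K, hK, h7⟩ := S.rho_upper (ν := ν') (C := 1) (E1 := E1) (k := 0) h1
        (by linarith) one_pos (by
          intro E hE0 hE
          have := (h6 E hE0 hE).2
          rw [sub_sub_cancel] at this
          rw [pow_zero, one_mul, mul_one]
          exact this)
      have h1ν' : 0 < 1 - ν' := by linarith
      have ha0 : 0 < 1 / (1 - ν') := by positivity
      have hE : ∀ᶠ x in 𝓝[>] (0 : ℝ), K ^ (1 / (1 - ν')) * x ^ (1 / (1 - ν')) ≤ min E1 1 := by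
        have h1 := (rpow_zero_lim ha0).const_mul (K ^ (1 / (1 - ν')))
        rw [mul_zero] at h1
        exact h1.eventually_le_const (lt_min hE1 one_pos)
      have hK0 : 0 < K := by linarith
      filter_upwards [ev_one, ev_le (show (0 : ℝ) < 1 / 2 by norm_num),
        log_inv_lim.eventually (eventually_ge_atTop 1), hE,
        pow_key2 (c := 2 * K ^ (1 / (1 - ν'))) (by positivity) (show 0 < ε / 2 by linarith)
          (1 / (1 - ν'))] with x ⟨h0, h01⟩ hx1 hL hxE h9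
      rw [← Real.mul_rpow hK0.le h0.le] at hxE
      have h10 := h7 x h0 hx1 hL (by rwa [pow_zero, mul_one])
      rw [pow_zero, mul_one, Real.mul_rpow hK0.le h0.le, ← mul_assoc] at h10
      refine h10.trans (h9.trans ?_)
      exact Real.rpow_le_rpow_of_exponent_ge h0 h01.le (by linarith)
    exact hL.and hU
  · intro h ε hε
    have hL : ∀ᶠ s in 𝓝[>] (0 : ℝ), s ^ (ν + ε) ≤ g s := by
      obtain ⟨ν', hν'⟩ : ∃ ν', ν' = ν + min (ε / 2) ((1 - ν) / 2) := ⟨_, rfl⟩
      have h3 : ν' ≤ ν + ε / 2 := by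
        rw [hν']
        linarith [min_le_left (ε / 2) ((1 - ν) / 2)]
      have h4 : ν' < 1 := by
        rw [hν']
        linarith [min_le_right (ε / 2) ((1 - ν) / 2)]
      have h5 : ν < ν' := by
        rw [hν']
        linarith [lt_min (show 0 < ε / 2 by linarith) (show 0 < (1 - ν) / 2 by linarith)]
      have h6 : 1 / (1 - ν) < 1 / (1 - ν') :=
        one_div_lt_one_div_of_lt (by linarith) (by linarith)
      have h7 := h (1 / (1 - ν') - 1 / (1 - ν)) (by linarith)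
      obtain ⟨c, hc, h8⟩ := S.g_of_rho (ν := ν') (c' := 1) (by linarith) h4 one_pos (by
        filter_upwards [h7] with s hs
        have := hs.1
        rw [add_sub_cancel] at this
        rw [one_mul]
        exact this)
      filter_upwards [ev_one, pow_key hc (show 0 < ε / 2 by linarith) ν'] with s ⟨h0, h1⟩ h9
      refine le_trans ?_ (h8 s h0 h1.le)
      refine le_trans ?_ h9
      exact Real.rpow_le_rpow_of_exponent_ge h0 h1.le (by linarith)
    have hU : ∀ᶠ s in 𝓝[>] (0 : ℝ), g s ≤ s ^ (ν - ε) := by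
      obtain ⟨ν', hν'⟩ : ∃ ν', ν' = ν - min (ε / 2) ((ν - 1 / 2) / 2) := ⟨_, rfl⟩
      have h3 : ν - ε / 2 ≤ ν' := by
        rw [hν']
        linarith [min_le_left (ε / 2) ((ν - 1 / 2) / 2)]
      have h4 : 1 / 2 < ν' := by
        rw [hν']
        linarith [min_le_right (ε / 2) ((ν - 1 / 2) / 2)]
      have h5 : ν' < ν := by
        rw [hν']
        linarith [lt_min (show 0 < ε / 2 by linarith) (show 0 < (ν - 1 / 2) / 2 by linarith)]
      have h6 : 1 / (1 - ν') < 1 / (1 - ν) :=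
        one_div_lt_one_div_of_lt h1ν (by linarith)
      have h7 := h (1 / (1 - ν) - 1 / (1 - ν')) (by linarith)
      obtain ⟨C, hC, h8⟩ := S.g_upper_of_rho (ν := ν') (C := 1) (j := 0) h4 (by linarith)
        one_pos (by
          filter_upwards [h7] with s hs
          have := hs.2
          rw [sub_sub_cancel] at this
          rw [one_mul, pow_zero, mul_one]
          exact this)
      filter_upwards [ev_one, h8, pow_key2 hC (show 0 < ε / 2 by linarith) ν'] with
        s ⟨h0, h1⟩ h9 h10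
      rw [Nat.cast_zero, zero_mul, Real.rpow_zero, mul_one] at h9
      refine h9.trans (h10.trans ?_)
      exact Real.rpow_le_rpow_of_exponent_ge h0 h1.le (by linarith)
    exact hL.and hU

end Pool.Agent.H557.IT
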