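import Pool.Agent.H557.IT.Conc

/-!
The rate function of the area and the mean area.
-/

set_option autoImplicit false

open MeasureTheory Set Filter Topology

namespace Pool.Agent.H557.IT

open Pool.Agent.H26
open Pool.Agent.Y981.L2 (Lam Rate psi mass par ln area loops_finite ma)
open H981 (mu)

theorem loops_pos {n : ℕ} (hn : 2 ≤ n) :
    0 < ({f : ZMod (2 * n) → ℤ × ℤ | H981.IsLoop (2 * n) f}.ncard : ℝ) := by
  obtain ⟨K0, -, hw⟩ := Y981.L2.ln_le
  exact (hw n hn).1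

/-- lower bounds of the rate function give upper bounds of the mean area -/
theorem area_up {p c : ℝ} (hp : 1 ≤ p) (hc : 0 < c)
    (h : ∀ u : ℝ, 0 < u → u ≤ 1 / 4 → c * u ^ p ≤ WF.RR u) :
    ∃ C : ℝ, 0 < C ∧ ∀ n : ℕ, 2 ≤ n →
      ma n ≤ C * (n : ℝ) ^ (2 - 1 / p) * Real.log n ^ (2 / p) := by
  obtain ⟨C0, hC0, hup⟩ := H26.UN.unif_up (ε := 1 / 2) (by norm_num) (by norm_num)
  have hp0 : 0 < p := by linarith
  have hl2 : 0 < Real.log 2 := Real.log_pos (by norm_num)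
  obtain ⟨B, hB⟩ : ∃ B, B = (C0 + 2 / Real.log 2) / c := ⟨_, rfl⟩
  have hB0 : 0 < B := by rw [hB]; positivity
  have hcB : c * B = C0 + 2 / Real.log 2 := by
    rw [hB]
    field_simp
  refine ⟨32 * B ^ (1 / p) + 9, by positivity, ?_⟩
  intro n hn
  have hn0 : (0 : ℝ) < n := by exact_mod_cast (by omega : 0 < n)
  have hn1 : (1 : ℝ) ≤ n := by exact_mod_cast (by omega : 1 ≤ n)
  have hn2 : (2 : ℝ) ≤ n := by exact_mod_cast hn
  obtain ⟨L, hL⟩ : ∃ L, L = Real.log (n : ℝ) := ⟨_, rfl⟩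
  have hLl : Real.log 2 ≤ L := by
    rw [hL]
    exact Real.log_le_log (by norm_num) hn2
  have hL0 : 0 < L := by linarith
  rw [← hL]
  obtain ⟨v, hv⟩ : ∃ v, v = (B * L ^ 2 / n) ^ (1 / p) := ⟨_, rfl⟩
  have hv0 : 0 < v := by rw [hv]; positivity
  have hvp : v ^ p = B * L ^ 2 / n := by
    rw [hv, ← Real.rpow_mul (by positivity), one_div_mul_cancel hp0.ne', Real.rpow_one]
  have e1 : v * (n : ℝ) ^ 2 = B ^ (1 / p) * ((n : ℝ) ^ (2 - 1 / p) * L ^ (2 / p)) := by
    rw [hv, Real.div_rpow (by positivity) hn0.le, Real.mul_rpow hB0.le (by positivity),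
      ← Real.rpow_natCast L 2, ← Real.rpow_mul hL0.le, Real.rpow_sub hn0]
    have : (n : ℝ) ^ (2 : ℝ) = (n : ℝ) ^ 2 := by norm_num
    rw [this]
    have e2 : ((2 : ℕ) : ℝ) * (1 / p) = 2 / p := by
      push_cast
      ring
    rw [e2]
    ring
  have hbig : 4 ≤ 9 * ((n : ℝ) ^ (2 - 1 / p) * L ^ (2 / p)) := by
    have h1 : (1 : ℝ) ≤ (n : ℝ) ^ (2 - 1 / p) := by
      apply Real.one_le_rpow hn1
      have : 1 / p ≤ 1 := by rw [div_le_one hp0]; exact hp
      linarith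
    have h2 : (0.48 : ℝ) ≤ L ^ (2 / p) := by
      have h3 : Real.log 2 ^ (2 / p) ≤ L ^ (2 / p) :=
        Real.rpow_le_rpow hl2.le hLl (by positivity)
      have h4 : Real.log 2 ^ (2 : ℝ) ≤ Real.log 2 ^ (2 / p) := by
        apply Real.rpow_le_rpow_of_exponent_ge hl2
        · have := Real.log_two_lt_d9
          linarith
        · rw [div_le_iff₀ hp0]
          linarith
      have h5 : (0.48 : ℝ) ≤ Real.log 2 ^ (2 : ℝ) := by
        have h6 : Real.log 2 ^ (2 : ℝ) = Real.log 2 ^ 2 := by norm_num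
        rw [h6]
        have := Real.log_two_gt_d9
        nlinarith
      linarith
    have h3 : 1 * 0.48 ≤ (n : ℝ) ^ (2 - 1 / p) * L ^ (2 / p) :=
      mul_le_mul h1 h2 (by norm_num) (by linarith)
    linarith
  have hl := loops_pos hn
  have goal : ma n ≤ 32 * (v * (n : ℝ) ^ 2) + 4 := by
    rcases le_or_gt (2 * v) (1 / 4) with hu | hu
    · have h1 := hup n hn (2 * v) (by positivity) hu
      have h2 := h v hv0 (by linarith)
      rw [hvp] at h2
      have h3 : (1 - 1 / 2) * (2 * v) = v := by ring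
      rw [h3] at h1
      have h4 : -(n * WF.RR v) + C0 * Real.log n ^ 2 ≤ -(2 * Real.log n) := by
        rw [← hL]
        have h5 := mul_le_mul_of_nonneg_left h2 hn0.le
        have h6 : (n : ℝ) * (c * (B * L ^ 2 / n)) = (c * B) * L ^ 2 := by field_simp
        rw [h6, hcB] at h5
        have h7 : 2 * L ≤ 2 / Real.log 2 * L ^ 2 := by
          rw [div_mul_eq_mul_div, le_div_iff₀ hl2]
          nlinarith
        linarith
      have h5 : par n (2 * v * (n : ℝ) ^ 2) ≤ ((n : ℝ) ^ 2)⁻¹ := by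
        refine (h1.trans (Real.exp_le_exp.2 h4)).trans (le_of_eq ?_)
        rw [Real.exp_neg, mul_comm, Real.exp_mul, Real.exp_log hn0]
        norm_num
      have h6 := Y981.L2.ma_le (n := n) (by omega) (r := 2 * v * (n : ℝ) ^ 2) (by positivity) hl
      have h7 : 4 * (n : ℝ) ^ 2 * par n (2 * v * (n : ℝ) ^ 2) ≤ 4 * (n : ℝ) ^ 2 * ((n : ℝ) ^ 2)⁻¹ :=
        mul_le_mul_of_nonneg_left h5 (by positivity)
      have h8 : 4 * (n : ℝ) ^ 2 * ((n : ℝ) ^ 2)⁻¹ = 4 := by field_simp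
      have h9 : 0 ≤ v * (n : ℝ) ^ 2 := by positivity
      linarith
    · have h6 := Y981.L2.ma_le (n := n) (by omega) (r := 0) le_rfl hl
      have h2 := Y981.L2X.par_one n (by omega) 0
      have h4 : 4 * (n : ℝ) ^ 2 * par n 0 ≤ 4 * (n : ℝ) ^ 2 * 1 :=
        mul_le_mul_of_nonneg_left h2 (by positivity)
      have h5 : (n : ℝ) ^ 2 * (1 / 4) ≤ (n : ℝ) ^ 2 * (2 * v) :=
        mul_le_mul_of_nonneg_left hu.le (by positivity)
      linarith
  rw [e1] at goal
  have e3 : (32 * B ^ (1 / p) + 9) * (n : ℝ) ^ (2 - 1 / p) * L ^ (2 / p) =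
      32 * (B ^ (1 / p) * ((n : ℝ) ^ (2 - 1 / p) * L ^ (2 / p))) +
        9 * ((n : ℝ) ^ (2 - 1 / p) * L ^ (2 / p)) := by ring
  rw [e3]
  linarith

/-- lower bounds of the mean area give upper bounds of the rate function -/
theorem area_low {ν c : ℝ} (hν : 1 / 2 < ν) (hν1 : ν < 1) (hc : 0 < c)
    (h : ∀ᶠ n : ℕ in atTop, c * (n : ℝ) ^ (2 * ν) ≤ ma n) :
    ∃ C : ℝ, 0 < C ∧ ∀ᶠ x in 𝓝[>] (0 : ℝ),
      WF.rho x ≤ C * x ^ (1 / (1 - ν)) * Real.log (1 / x) ^ 2 := by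
  obtain ⟨C0, hC0, hup⟩ := H26.UN.unif_up (ε := 1 / 2) (by norm_num) (by norm_num)
  have h1ν : 0 < 1 - ν := by linarith
  have hl2 : 0 < Real.log 2 := Real.log_pos (by norm_num)
  -- the scale
  have hun : ∀ᶠ n : ℕ in atTop, c / 2 * (n : ℝ) ^ (2 * ν - 2) ≤ 1 / 4 := by
    have h1 : Tendsto (fun n : ℕ => (n : ℝ) ^ (-(2 - 2 * ν))) atTop (𝓝 0) :=
      (tendsto_rpow_neg_atTop (by linarith)).comp tendsto_natCast_atTop_atTop
    have h2 := h1.const_mul (c / 2)
    rw [mul_zero] at h2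
    filter_upwards [h2.eventually_le_const (show (0 : ℝ) < 1 / 4 by norm_num)] with n hn
    have : 2 * ν - 2 = -(2 - 2 * ν) := by ring
    rw [this]
    exact hn
  obtain ⟨C1, hC1⟩ : ∃ C1, C1 = C0 + (|Real.log (8 / c)| / Real.log 2 + 2) / Real.log 2 := ⟨_, rfl⟩
  have hC10 : 0 < C1 := by rw [hC1]; positivity
  have key : ∀ᶠ n : ℕ in atTop, n * WF.RR (c / 4 * (n : ℝ) ^ (2 * ν - 2)) ≤ C1 * Real.log n ^ 2 := by
    filter_upwards [h, hun, eventually_ge_atTop 2] with n h1 h2 hn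
    have hn0 : (0 : ℝ) < n := by exact_mod_cast (by omega : 0 < n)
    have hn2 : (2 : ℝ) ≤ n := by exact_mod_cast hn
    have hLl : Real.log 2 ≤ Real.log n := Real.log_le_log (by norm_num) hn2
    obtain ⟨u, hu⟩ : ∃ u, u = c / 2 * (n : ℝ) ^ (2 * ν - 2) := ⟨_, rfl⟩
    have hu0 : 0 < u := by rw [hu]; positivity
    rw [← hu] at h2
    have e1 : c / 4 * (n : ℝ) ^ (2 * ν - 2) = (1 - 1 / 2) * u := by rw [hu]; ring
    rw [e1]
    have h3 := hup n hn u hu0 h2
    have h4 := Y981.L2.ma_le (n := n) (by omega) (r := u * (n : ℝ) ^ 2) (by positivity)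
      (loops_pos hn)
    have e2 : u * (n : ℝ) ^ 2 = c / 2 * (n : ℝ) ^ (2 * ν) := by
      rw [hu, mul_assoc]
      congr 1
      rw [← Real.rpow_natCast (n : ℝ) 2, ← Real.rpow_add hn0]
      congr 1
      push_cast
      ring
    obtain ⟨X, hX⟩ : ∃ X, X = -(n * WF.RR ((1 - 1 / 2) * u)) + C0 * Real.log n ^ 2 := ⟨_, rfl⟩
    rw [← hX] at h3
    have h5 : u * (n : ℝ) ^ 2 ≤ 4 * (n : ℝ) ^ 2 * Real.exp X := by
      have h6 : 4 * (n : ℝ) ^ 2 * par n (u * (n : ℝ) ^ 2) ≤ 4 * (n : ℝ) ^ 2 * Real.exp X :=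
        mul_le_mul_of_nonneg_left h3 (by positivity)
      have h7 : c * (n : ℝ) ^ (2 * ν) = 2 * (u * (n : ℝ) ^ 2) := by rw [e2]; ring
      linarith
    have h6 : u ≤ 4 * Real.exp X := by
      have h7 : u * (n : ℝ) ^ 2 ≤ 4 * Real.exp X * (n : ℝ) ^ 2 := by linarith
      exact le_of_mul_le_mul_right h7 (by positivity)
    have h7 : Real.log (u / 4) ≤ X := by
      rw [Real.log_le_iff_le_exp (by positivity)]
      linarith
    have h8 : Real.log (u / 4) = -Real.log (8 / c) + (2 * ν - 2) * Real.log n := by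
      have : u / 4 = (8 / c)⁻¹ * (n : ℝ) ^ (2 * ν - 2) := by
        rw [hu]
        field_simp
        norm_num
      rw [this, Real.log_mul (by positivity) (by positivity), Real.log_inv, Real.log_rpow hn0]
    rw [h8, hX] at h7
    have h9 := le_abs_self (Real.log (8 / c))
    have h10 : (2 - 2 * ν) * Real.log n ≤ 2 * Real.log n :=
      mul_le_mul_of_nonneg_right (by linarith) (by linarith)
    have h11 : |Real.log (8 / c)| ≤ |Real.log (8 / c)| / Real.log 2 * Real.log n := by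
      rw [div_mul_eq_mul_div, le_div_iff₀ hl2]
      exact mul_le_mul_of_nonneg_left hLl (abs_nonneg _)
    have h12 : (|Real.log (8 / c)| / Real.log 2 + 2) * Real.log n ≤
        (|Real.log (8 / c)| / Real.log 2 + 2) / Real.log 2 * Real.log n ^ 2 := by
      rw [div_mul_eq_mul_div (|Real.log (8 / c)| / Real.log 2 + 2), le_div_iff₀ hl2, mul_assoc]
      apply mul_le_mul_of_nonneg_left _ (by positivity)
      nlinarith
    have h13 : C1 * Real.log n ^ 2 = C0 * Real.log n ^ 2 +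
        (|Real.log (8 / c)| / Real.log 2 + 2) / Real.log 2 * Real.log n ^ 2 := by
      rw [hC1]
      ring
    rw [h13]
    linarith
  rw [eventually_atTop] at key
  obtain ⟨N0, key⟩ := key
  rw [eventually_atTop] at hun
  obtain ⟨N1, hun⟩ := hun
  -- the interpolation
  obtain ⟨p, hp⟩ : ∃ p, p = 1 / (2 - 2 * ν) := ⟨_, rfl⟩
  have hp0 : 0 < p := by rw [hp]; exact div_pos one_pos (by linarith)
  have h2p : 1 / (1 - ν) = 2 * p := by
    rw [hp]
    have : 2 - 2 * ν = 2 * (1 - ν) := by ring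
    rw [this]
    field_simp
  have hpν : (-p) * (2 * ν - 2) = 1 := by
    have h1 : 2 - 2 * ν ≠ 0 := by
      have : 0 < 2 - 2 * ν := by linarith
      exact this.ne'
    have h2 : p * (2 - 2 * ν) = 1 := by rw [hp]; field_simp
    linarith
  rw [h2p]
  obtain ⟨D, hD⟩ : ∃ D, D = p * (|Real.log (c / 4)| + 2) := ⟨_, rfl⟩
  have hD0 : 0 < D := by rw [hD]; positivity
  refine ⟨2 * C1 * D ^ 2 * (4 / c) ^ p, by positivity, ?_⟩
  -- y tends to infinity
  have hy : Tendsto (fun x : ℝ => (4 / c * x ^ (2 : ℝ)) ^ (-p)) (𝓝[>] 0) atTop := by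
    have h1 : Tendsto (fun x : ℝ => 4 / c * x ^ (2 : ℝ)) (𝓝[>] 0) (𝓝[>] 0) := by
      apply tendsto_nhdsWithin_iff.2
      constructor
      · have := (rpow_zero_lim (show (0 : ℝ) < 2 by norm_num)).const_mul (4 / c)
        rwa [mul_zero] at this
      · filter_upwards [eventually_mem_nhdsWithin] with x hx
        have hx0 : 0 < x := hx
        show 0 < 4 / c * x ^ (2 : ℝ)
        positivity
    exact (tendsto_rpow_neg_nhdsGT_zero (by linarith)).comp h1
  filter_upwards [ev_one, log_inv_lim.eventually (eventually_ge_atTop 1),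
    hy.eventually (eventually_ge_atTop (max (N0 : ℝ) (max N1 2) + 1))] with x ⟨hx0, hx1⟩ hL hy1
  obtain ⟨y, hyd⟩ : ∃ y, y = (4 / c * x ^ (2 : ℝ)) ^ (-p) := ⟨_, rfl⟩
  rw [← hyd] at hy1
  have hy0 : 0 < y := by rw [hyd]; positivity
  obtain ⟨n, hn⟩ : ∃ n, n = ⌊y⌋₊ := ⟨_, rfl⟩
  have hn1 : (n : ℝ) ≤ y := by rw [hn]; exact Nat.floor_le hy0.le
  have hn2 : y < n + 1 := by rw [hn]; exact Nat.lt_floor_add_one y
  have hm1 := le_max_left (N0 : ℝ) (max N1 2)
  have hm2 := le_max_right (N0 : ℝ) (max N1 2)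
  have hm3 := le_max_left (N1 : ℝ) 2
  have hm4 := le_max_right (N1 : ℝ) 2
  have hnN0 : N0 ≤ n := by
    have : (N0 : ℝ) < n + 1 := by linarith
    have : N0 < n + 1 := by exact_mod_cast this
    omega
  have hnN1 : N1 ≤ n := by
    have : (N1 : ℝ) < n + 1 := by linarith
    have : N1 < n + 1 := by exact_mod_cast this
    omega
  have hn3 : 2 ≤ n := by
    have : ((2 : ℕ) : ℝ) < n + 1 := by push_cast; linarith
    have : 2 < n + 1 := by exact_mod_cast this
    omega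
  have hn0 : (0 : ℝ) < n := by exact_mod_cast (by omega : 0 < n)
  have hn4 : y ≤ 2 * n := by
    have : (1 : ℝ) ≤ n := by exact_mod_cast (by omega : 1 ≤ n)
    linarith
  have hk := key n hnN0
  have hu4 := hun n hnN1
  -- comparison
  have h1 : x ^ 2 ≤ c / 4 * (n : ℝ) ^ (2 * ν - 2) := by
    have h2 : y ^ (2 * ν - 2) ≤ (n : ℝ) ^ (2 * ν - 2) :=
      Real.rpow_le_rpow_of_nonpos hn0 hn1 (by linarith)
    have h3 : y ^ (2 * ν - 2) = 4 / c * x ^ (2 : ℝ) := by
      rw [hyd, ← Real.rpow_mul (by positivity), hpν, Real.rpow_one]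
    rw [h3] at h2
    have h4 : x ^ (2 : ℝ) = x ^ 2 := by norm_num
    rw [h4] at h2
    have h5 := mul_le_mul_of_nonneg_left h2 (show 0 ≤ c / 4 by positivity)
    have h6 : c / 4 * (4 / c * x ^ 2) = x ^ 2 := by field_simp
    linarith
  have hpos : 0 < (n : ℝ) ^ (2 * ν - 2) := Real.rpow_pos_of_pos hn0 _
  have h2 : WF.rho x ≤ WF.RR (c / 4 * (n : ℝ) ^ (2 * ν - 2)) := by
    rw [WF.rho_eq hx0.le]
    apply WF.RR_strict.monotoneOn _ _ h1
    · refine ⟨sq_nonneg x, ?_⟩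
      have : 0 < c * (n : ℝ) ^ (2 * ν - 2) := by positivity
      linarith
    · refine ⟨by positivity, ?_⟩
      have : 0 < c * (n : ℝ) ^ (2 * ν - 2) := by positivity
      linarith
  have h3 : WF.rho x * n ≤ C1 * Real.log n ^ 2 := by
    have := mul_le_mul_of_nonneg_right h2 hn0.le
    linarith
  have hlogn : Real.log n ≤ D * Real.log (1 / x) := by
    have h4 : Real.log n ≤ Real.log y := Real.log_le_log hn0 hn1
    have h5 : Real.log y = p * (Real.log (c / 4) + 2 * Real.log (1 / x)) := by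
      rw [hyd, Real.log_rpow (by positivity), Real.log_mul (by positivity) (by positivity),
        Real.log_rpow hx0]
      have : (4 : ℝ) / c = (c / 4)⁻¹ := by rw [inv_div]
      rw [this, Real.log_inv, one_div, Real.log_inv]
      ring
    have h6 := le_abs_self (Real.log (c / 4))
    have h7 : |Real.log (c / 4)| * 1 ≤ |Real.log (c / 4)| * Real.log (1 / x) :=
      mul_le_mul_of_nonneg_left hL (abs_nonneg _)
    have h8 : p * (Real.log (c / 4) + 2 * Real.log (1 / x)) ≤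
        p * ((|Real.log (c / 4)| + 2) * Real.log (1 / x)) :=
      mul_le_mul_of_nonneg_left (by linarith) hp0.le
    rw [hD]
    linarith
  have hlog0 : 0 ≤ Real.log (n : ℝ) := Real.log_nonneg (by exact_mod_cast (by omega : 1 ≤ n))
  have h4 : Real.log n ^ 2 ≤ D ^ 2 * Real.log (1 / x) ^ 2 := by
    rw [← mul_pow]
    exact pow_le_pow_left₀ hlog0 hlogn 2
  have hrho0 : 0 ≤ WF.rho x := by
    have h5 : x ^ 2 ≤ 1 / 4 := by
      have : 0 < c * (n : ℝ) ^ (2 * ν - 2) := by positivity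
      linarith
    rw [WF.rho_eq hx0.le]
    exact WF.RR_nonneg ⟨sq_nonneg x, h5⟩
  have h5 : WF.rho x * y ≤ 2 * (C1 * (D ^ 2 * Real.log (1 / x) ^ 2)) := by
    have h6 := mul_le_mul_of_nonneg_left hn4 hrho0
    have h7 := mul_le_mul_of_nonneg_left h4 hC10.le
    linarith
  have h6 : y⁻¹ = (4 / c) ^ p * x ^ (2 * p) := by
    rw [hyd, Real.rpow_neg (by positivity), inv_inv, Real.mul_rpow (by positivity) (by positivity),
      ← Real.rpow_mul hx0.le]
  have h7 : WF.rho x ≤ 2 * (C1 * (D ^ 2 * Real.log (1 / x) ^ 2)) * y⁻¹ := by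
    rw [← div_eq_mul_inv, le_div_iff₀ hy0]
    exact h5
  rw [h6] at h7
  refine h7.trans (le_of_eq ?_)
  ring

end Pool.Agent.H557.IT
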