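import Pool.Agent.H557.IT.Abs4
import Pool.Agent.H26.AR.Prs
import Pool.Agent.H26.AR.Dual
import Pool.Agent.H26.UN.Unif
import Pool.Graph.R_seed8.Y981.L2X.Poly

/-!
The concrete functions: areas of the Wulff shapes, the rate function of the area, the free energy.
-/

set_option autoImplicit false

open MeasureTheory Set Filter Topology
open scoped Pointwise ENNReal

namespace Pool.Agent.H557.IT

open Pool.Agent.H26
open Pool.Agent.Y981.L2 (Lam Rate psi mass par ln area loops_finite ma)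
open Pool.Agent.Y981.L2X (M)
open H981 (mu)

theorem vol_box {w : ℝ} (hw : 0 ≤ w) : volume.real (Icc (-w) w ×ˢ Icc (-w) w : Set (ℝ × ℝ)) =
    (2 * w) ^ 2 := by
  unfold Measure.real
  rw [Measure.volume_eq_prod, Measure.prod_prod, Real.volume_Icc,
    ← ENNReal.ofReal_mul (by linarith), ENNReal.toReal_ofReal (by nlinarith)]
  ring

/-- the areas of the Wulff shapes and the mass -/
theorem V_le_mass {E : ℝ} (hE : 0 < E) : WF.V E ≤ 4 * mass E ^ 2 := by
  have hm := Y981.L2.mass_pos hE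
  have hsub : WF.Kc E ⊆ Icc (-(mass E)) (mass E) ×ˢ Icc (-(mass E)) (mass E) := by
    intro h hh
    have h0 : Lam h ≤ E := hh
    have h1 : |h.1| ≤ mass E :=
      Y981.L2.le_mass (abs_nonneg _) ((Y981.L2X.Lam_ge h).trans h0)
    have h2 : |h.2| ≤ mass E := by
      have h3 := Y981.L2X.Lam_ge (h.2, h.1)
      rw [Y981.L2X.Lam_sw] at h3
      exact Y981.L2.le_mass (abs_nonneg _) (h3.trans h0)
    rw [mem_prod, mem_Icc, mem_Icc, ← abs_le, ← abs_le]
    exact ⟨h1, h2⟩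
  have hfin : volume (Icc (-(mass E)) (mass E) ×ˢ Icc (-(mass E)) (mass E) : Set (ℝ × ℝ)) ≠ ⊤ :=
    (isCompact_Icc.prod isCompact_Icc).measure_lt_top.ne
  have h1 := measureReal_mono hsub hfin
  rw [vol_box hm.le] at h1
  unfold WF.V
  linarith

/-- the linear map `(x, y) ↦ (x + y, x - y)` -/
def rot : ℝ × ℝ →ₗ[ℝ] ℝ × ℝ :=
  LinearMap.prod (LinearMap.fst ℝ ℝ ℝ + LinearMap.snd ℝ ℝ ℝ) (LinearMap.fst ℝ ℝ ℝ - LinearMap.snd ℝ ℝ ℝ)

theorem rot_apply (x : ℝ × ℝ) : rot x = (x.1 + x.2, x.1 - x.2) := by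
  simp [rot]

theorem rot_det : |LinearMap.det rot| = 2 := by
  have h1 : rot ∘ₗ rot = (2 : ℝ) • LinearMap.id := by
    apply LinearMap.ext
    intro x
    rw [LinearMap.comp_apply, rot_apply, rot_apply]
    apply Prod.ext
    · simp
      ring
    · simp
      ring
  have h2 : LinearMap.det rot * LinearMap.det rot = 4 := by
    rw [← LinearMap.det_comp, h1, LinearMap.det_smul, LinearMap.det_id]
    have : Module.finrank ℝ (ℝ × ℝ) = 2 := by simp
    rw [this]
    norm_num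
  have h3 : |LinearMap.det rot| ^ 2 = 2 ^ 2 := by
    rw [sq_abs, sq, h2]
    norm_num
  exact (pow_left_inj₀ (abs_nonneg _) (by norm_num) two_ne_zero).1 h3

theorem vol_rot {w : ℝ} (hw : 0 ≤ w) :
    volume.real (rot '' (Icc (-(w / 2)) (w / 2) ×ˢ Icc (-(w / 2)) (w / 2) : Set (ℝ × ℝ))) =
      2 * w ^ 2 := by
  unfold Measure.real
  rw [Measure.addHaar_image_linearMap, rot_det, ENNReal.toReal_mul,
    ENNReal.toReal_ofReal (by norm_num)]
  have := vol_box (show 0 ≤ w / 2 by positivity)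
  unfold Measure.real at this
  rw [this]
  ring

theorem mass_le_V {E : ℝ} (hE : 0 < E) : 2 * mass E ^ 2 ≤ WF.V E := by
  have hm := Y981.L2.mass_pos hE
  obtain ⟨hconv, hcomp, hint⟩ := WF.Kc_props hE
  have h0K : (0 : ℝ × ℝ) ∈ WF.Kc E := interior_subset hint
  have key : ∀ w : ℝ, 0 < w → w < mass E → 2 * w ^ 2 ≤ WF.V E := by
    intro w hw hwm
    have hp : psi w ≤ E := Y981.L2.psi_le_of_lt hE.le hw.le hwm
    have hx : ∀ σ : ℝ, |σ| = 1 → ((σ * w, 0) : ℝ × ℝ) ∈ WF.Kc E := by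
      intro σ hσ
      rcases (abs_eq (zero_le_one)).1 hσ with h | h
      · rw [h, one_mul]
        exact hp
      · rw [h, neg_one_mul]
        show Lam (-w, 0) ≤ E
        exact (Y981.L2.Lam_sg (w, 0)).le.trans hp
    have hy : ∀ σ : ℝ, |σ| = 1 → ((0, σ * w) : ℝ × ℝ) ∈ WF.Kc E := by
      intro σ hσ
      have h1 : Lam (σ * w, 0) ≤ E := hx σ hσ
      show Lam (0, σ * w) ≤ E
      exact (Y981.L2X.Lam_sw (σ * w, 0)).le.trans h1
    have hsgn : ∀ a : ℝ, ∃ σ : ℝ, |σ| = 1 ∧ a = σ * |a| := by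
      intro a
      rcases le_total 0 a with h | h
      · exact ⟨1, by simp, by rw [abs_of_nonneg h, one_mul]⟩
      · exact ⟨-1, by simp, by rw [abs_of_nonpos h]; ring⟩
    have hsub : rot '' (Icc (-(w / 2)) (w / 2) ×ˢ Icc (-(w / 2)) (w / 2) : Set (ℝ × ℝ)) ⊆
        WF.Kc E := by
      rintro _ ⟨x, ⟨hx1, hx2⟩, rfl⟩
      rw [rot_apply]
      obtain ⟨a, ha⟩ : ∃ a, a = x.1 + x.2 := ⟨_, rfl⟩
      obtain ⟨b, hb⟩ : ∃ b, b = x.1 - x.2 := ⟨_, rfl⟩
      rw [← ha, ← hb]
      have hab : |a| + |b| ≤ w := by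
        have h1 := hx1.1
        have h2 := hx1.2
        have h3 := hx2.1
        have h4 := hx2.2
        rcases abs_cases a with ⟨h5, _⟩ | ⟨h5, _⟩ <;> rcases abs_cases b with ⟨h6, _⟩ | ⟨h6, _⟩ <;>
          rw [h5, h6] <;> linarith
      obtain ⟨σ, hσ, hσa⟩ := hsgn a
      obtain ⟨τ, hτ, hτb⟩ := hsgn b
      obtain ⟨s, hs⟩ : ∃ s, s = |a| + |b| := ⟨_, rfl⟩
      rw [← hs] at hab
      have hs0 : 0 ≤ s := by rw [hs]; positivity
      rcases hs0.eq_or_lt with h | h
      · have h1 : |a| = 0 := by linarith [abs_nonneg a, abs_nonneg b]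
        have h2 : |b| = 0 := by linarith [abs_nonneg a, abs_nonneg b]
        rw [abs_eq_zero] at h1 h2
        rw [h1, h2]
        exact h0K
      · have h1 : (|a| / s) • ((σ * w, 0) : ℝ × ℝ) + (|b| / s) • ((0, τ * w) : ℝ × ℝ) ∈ WF.Kc E := by
          apply hconv (hx σ hσ) (hy τ hτ) (by positivity) (by positivity)
          rw [← add_div, ← hs, div_self h.ne']
        have h2 : (s / w) • ((|a| / s) • ((σ * w, 0) : ℝ × ℝ) + (|b| / s) • ((0, τ * w) : ℝ × ℝ)) +
            (1 - s / w) • (0 : ℝ × ℝ) ∈ WF.Kc E := by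
          apply hconv h1 h0K (by positivity)
          · rw [sub_nonneg, div_le_one hw]
            exact hab
          · ring
        have h3 : (s / w) • ((|a| / s) • ((σ * w, 0) : ℝ × ℝ) + (|b| / s) • ((0, τ * w) : ℝ × ℝ)) +
            (1 - s / w) • (0 : ℝ × ℝ) = (a, b) := by
          have e1 : (s / w) * ((|a| / s) * (σ * w)) = σ * |a| := by field_simp
          have e2 : (s / w) * ((|b| / s) * (τ * w)) = τ * |b| := by field_simp
          have e3 : (s / w) * ((|a| / s) * (σ * w)) = a := e1.trans hσa.symm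
          have e4 : (s / w) * ((|b| / s) * (τ * w)) = b := e2.trans hτb.symm
          apply Prod.ext
          · simp only [Prod.fst_add, Prod.smul_fst, smul_eq_mul, mul_zero, add_zero, Prod.fst_zero]
            exact e3
          · simp only [Prod.snd_add, Prod.smul_snd, smul_eq_mul, mul_zero, add_zero, zero_add,
              Prod.snd_zero]
            exact e4
        rwa [h3] at h2
    have hfin : volume (WF.Kc E) ≠ ⊤ := hcomp.measure_lt_top.ne
    have h1 := measureReal_mono hsub hfin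
    rw [vol_rot hw.le] at h1
    exact h1
  have hlim : Tendsto (fun w : ℝ => 2 * w ^ 2) (𝓝[<] (mass E)) (𝓝 (2 * mass E ^ 2)) := by
    have : Continuous (fun w : ℝ => 2 * w ^ 2) := by fun_prop
    exact (this.tendsto _).mono_left nhdsWithin_le_nhds
  refine le_of_tendsto hlim ?_
  filter_upwards [Ioo_mem_nhdsLT hm] with w hw
  exact key w hw.1 hw.2

theorem g_sq {E : ℝ} : WF.g E ^ 2 = WF.V E := by
  unfold WF.g
  exact Real.sq_sqrt (WF.V_nonneg E)

theorem g_pos {E : ℝ} (hE : 0 < E) : 0 < WF.g E := by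
  unfold WF.g
  apply Real.sqrt_pos.2
  have := mass_le_V hE
  have := Y981.L2.mass_pos hE
  nlinarith

theorem g_mono {E E' : ℝ} (hE : 0 < E) (h : E ≤ E') : WF.g E ≤ WF.g E' := by
  unfold WF.g
  apply Real.sqrt_le_sqrt
  unfold WF.V
  apply measureReal_mono _ (WF.Kc_props (hE.trans_le h)).2.1.measure_lt_top.ne
  intro x hx
  have : Lam x ≤ E := hx
  exact this.trans h

theorem g_conc {E E' : ℝ} (hE : 0 < E) (h : E ≤ E') : E * WF.g E' ≤ E' * WF.g E := by
  have hE' : 0 < E' := hE.trans_le h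
  obtain ⟨t, ht⟩ : ∃ t, t = E / E' := ⟨_, rfl⟩
  have ht0 : 0 < t := by rw [ht]; positivity
  have ht1 : t ≤ 1 := by rw [ht, div_le_one hE']; exact h
  have hsub : t • WF.Kc E' ⊆ WF.Kc E := by
    rintro _ ⟨x, hx, rfl⟩
    have h1 : Lam x ≤ E' := hx
    have h2 := Y981.L2X.Lam_smul x ht0.le ht1
    show Lam (t • x) ≤ E
    have e : t • x = (t * x.1, t * x.2) := by
      apply Prod.ext <;> simp
    rw [e]
    refine h2.trans ?_
    have h3 := mul_le_mul_of_nonneg_left h1 ht0.le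
    rw [ht] at h3 ⊢
    rw [div_mul_cancel₀ _ hE'.ne'] at h3
    exact h3
  have hfin : volume (WF.Kc E) ≠ ⊤ := (WF.Kc_props hE).2.1.measure_lt_top.ne
  have h1 : volume.real (t • WF.Kc E') ≤ volume.real (WF.Kc E) := measureReal_mono hsub hfin
  have h2 : volume.real (t • WF.Kc E') = t ^ 2 * WF.V E' := by
    unfold WF.V Measure.real
    rw [Measure.addHaar_smul, ENNReal.toReal_mul]
    have : Module.finrank ℝ (ℝ × ℝ) = 2 := by simp
    rw [this, ENNReal.toReal_ofReal (abs_nonneg _), abs_of_nonneg (by positivity)]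
  rw [h2] at h1
  have h3 : (t * WF.g E') ^ 2 ≤ WF.g E ^ 2 := by
    rw [mul_pow, g_sq, g_sq]
    exact h1
  have h4 : t * WF.g E' ≤ WF.g E :=
    (pow_le_pow_iff_left₀ (mul_nonneg ht0.le (WF.g_nonneg _)) (WF.g_nonneg _) two_ne_zero).1 h3
  rw [ht, div_mul_eq_mul_div, div_le_iff₀ hE'] at h4
  linarith

theorem sys : Sys WF.g WF.rho WF.FE where
  gpos := fun _ hE => g_pos hE
  gmono := fun _ _ hE h => g_mono hE h
  gconc := fun _ _ hE h => g_conc hE h
  le_rho := fun _ h0 h1 _ hE => WF.le_rho h0 h1 hE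
  rho_le := fun _ _ _ _ h => WF.rho_le h
  rho_pos := fun _ h0 h1 => WF.rho_pos h0 h1
  dual := by
    intro E c hE h
    refine (WF.dual hE).2 ?_
    rintro _ ⟨u, hu, rfl⟩
    have hs : 0 < √u := Real.sqrt_pos.2 hu.1
    simp only
    rw [le_div_iff₀ hs, WF.RR_eq hu.1.le]
    exact h _ hs (WF.sqrt_mem ⟨hu.1.le, hu.2⟩).2
  le_F := by
    intro s x h0 h1
    have h2 : x ^ 2 ∈ Icc (0 : ℝ) (1 / 4) := ⟨sq_nonneg x, by nlinarith⟩
    have h3 := WF.le_FE s h2
    rwa [← WF.rho_eq h0] at h3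
  F_le := by
    intro s
    obtain ⟨u, hu, h⟩ := isCompact_Icc.exists_isMaxOn
      (⟨0, by norm_num⟩ : (Icc (0 : ℝ) (1 / 4)).Nonempty) (WF.FE_cont s)
    have hs := WF.sqrt_mem hu
    refine ⟨√u, hs.1, hs.2, ?_⟩
    rw [Real.sq_sqrt hu.1, ← WF.RR_eq hu.1]
    apply le_antisymm
    · apply csSup_le (⟨_, 0, by norm_num, rfl⟩ :
        ((fun u : ℝ => s * u - WF.RR u) '' Icc 0 (1 / 4)).Nonempty)
      rintro _ ⟨v, hv, rfl⟩
      exact h hv
    · exact WF.le_FE s hu

end Pool.Agent.H557.IT
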