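import Pool.Agent.H557.IT.Mass

/-!
The equivalences with the tail; the consequences for and of the mean area.
-/

set_option autoImplicit false

open MeasureTheory Set Filter Topology

namespace Pool.Agent.H557.IT

open Pool.Agent.H26
open Pool.Agent.Y981.L2 (Lam Rate psi mass par ln area loops_finite ma)
open H981 (mu)

/-- the tail of the area is at most `exp (C log² n - c n (a / n²)^p)` -/
def TailUp (p : ℝ) : Prop := ∃ C c : ℝ, 0 < c ∧ ∀ n : ℕ, 2 ≤ n → ∀ a : ℝ, 0 < a →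
  par n a ≤ Real.exp (C * Real.log n ^ 2 - c * (n * (a / (n : ℝ) ^ 2) ^ p))

/-- the tail of the area is at least `exp (- C log² n - C n (a / n²)^p)` -/
def TailLow (p : ℝ) : Prop := ∃ C : ℝ, ∀ᶠ n : ℕ in atTop, ∀ a : ℝ, 0 < a →
  a ≤ (n : ℝ) ^ 2 / 8 →
  Real.exp (-(C * Real.log n ^ 2) - C * (n * (a / (n : ℝ) ^ 2) ^ p)) ≤ par n a

theorem tailUp_iff {p : ℝ} (hp : 0 < p) : TailUp p ↔ OmPow WF.RR p := by
  constructor
  · rintro ⟨C, c, hc, h⟩
    refine ⟨c, hc, ?_⟩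
    filter_upwards [ev_one, ev_le (show (0 : ℝ) < 1 / 5 by norm_num)] with u ⟨h1, _⟩ h2
    exact RR_of_tail h h1 (by linarith)
  · intro h
    obtain ⟨c, hc, h⟩ := RR_all_low hp h
    exact tail_up hc h

theorem tailLow_iff {p : ℝ} (hp : 0 < p) : TailLow p ↔ OhPow WF.RR p := by
  constructor
  · rintro ⟨C, h⟩
    refine ⟨C, ?_⟩
    filter_upwards [ev_one, ev_le (show (0 : ℝ) < 1 / 8 by norm_num)] with u ⟨h1, _⟩ h2
    exact RR_of_tail_low h h1 h2
  · intro h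
    obtain ⟨C, hC, h⟩ := RR_all_up hp h
    exact tail_low hC h

theorem sc_iff : 0 < sc ↔ TailUp 1 := by
  constructor
  · intro h
    apply tail_up h
    intro u hu hu4
    rw [Real.rpow_one]
    exact RR_sc hu.le hu4
  · rintro ⟨C, c, hc, h⟩
    refine hc.trans_le ?_
    by_contra hcon
    push Not at hcon
    have h1 := FE_pos hcon
    obtain ⟨x, hx0, hx1, hx⟩ := sys.F_le c
    have h2 : ∀ y : ℝ, 0 ≤ y → y < 1 / 2 → c * y ^ 2 ≤ WF.rho y := by
      intro y hy0 hy1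
      rcases hy0.eq_or_lt with h3 | h3
      · rw [← h3, WF.rho_zero]
        norm_num
      · have h4 := RR_of_tail (p := 1) h (u := y ^ 2) (by positivity) (by nlinarith)
        rw [Real.rpow_one] at h4
        rwa [WF.rho_eq hy0]
    have h3 : c * x ^ 2 ≤ WF.rho x := by
      rcases hx1.lt_or_eq with h4 | h4
      · exact h2 x hx0 h4
      · have h5 : Tendsto (fun y : ℝ => c * y ^ 2) (𝓝[<] (1 / 2)) (𝓝 (c * (1 / 2) ^ 2)) := by
          have : Continuous (fun y : ℝ => c * y ^ 2) := by fun_prop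
          exact (this.tendsto _).mono_left nhdsWithin_le_nhds
        rw [h4]
        refine le_of_tendsto h5 ?_
        filter_upwards [Ioo_mem_nhdsLT (show (0 : ℝ) < 1 / 2 by norm_num)] with y hy
        exact (h2 y hy.1.le hy.2).trans (sys.rho_mono hy.1.le hy.2.le le_rfl)
    linarith

theorem sc_area (h : 0 < sc) : ∃ C : ℝ, ∀ n : ℕ, 2 ≤ n → ma n ≤ C * n * Real.log n ^ 2 := by
  obtain ⟨C, -, h1⟩ := area_up (p := 1) le_rfl h (by
    intro u hu hu4
    rw [Real.rpow_one]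
    exact RR_sc hu.le hu4)
  refine ⟨C, ?_⟩
  intro n hn
  have h2 := h1 n hn
  have e1 : (2 : ℝ) - 1 / 1 = 1 := by norm_num
  have e2 : (2 : ℝ) / 1 = ((2 : ℕ) : ℝ) := by norm_num
  rw [e1, e2, Real.rpow_one, Real.rpow_natCast] at h2
  exact h2

theorem up_area {ν : ℝ} (hν : 1 / 2 < ν) (hν1 : ν < 1) (h : OhPow xi (-ν)) :
    ∃ C : ℝ, ∀ n : ℕ, 2 ≤ n → ma n ≤ C * (n : ℝ) ^ (2 * ν) * Real.log n ^ (4 - 4 * ν) := by
  have h1 := (up_tfae hν hν1).1.1 h
  have h2ν : 0 < 2 - 2 * ν := by linarith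
  obtain ⟨c, hc, h2⟩ := RR_all_low (by positivity) h1
  obtain ⟨C, -, h3⟩ := area_up (p := 1 / (2 - 2 * ν)) (by
    rw [le_div_iff₀ h2ν]
    linarith) hc h2
  refine ⟨C, ?_⟩
  intro n hn
  have h4 := h3 n hn
  have e1 : 2 - 1 / (1 / (2 - 2 * ν)) = 2 * ν := by
    rw [one_div_one_div]
    ring
  have e2 : 2 / (1 / (2 - 2 * ν)) = 4 - 4 * ν := by
    rw [div_div_eq_mul_div, div_one]
    ring
  rwa [e1, e2] at h4

/-- consequences of a lower bound of the mean area -/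
theorem low_area {ν c : ℝ} (hν : 1 / 2 < ν) (hν1 : ν < 1) (hc : 0 < c)
    (h : ∀ᶠ n : ℕ in atTop, c * (n : ℝ) ^ (2 * ν) ≤ ma n) :
    ∃ C c' : ℝ, 0 < c' ∧
      (∀ᶠ u in 𝓝[>] (0 : ℝ), WF.RR u ≤ C * u ^ (1 / (2 - 2 * ν)) * Real.log (1 / u) ^ 2) ∧
      (∀ᶠ t in 𝓝[>] (0 : ℝ), c' * t ^ (-ν) / Real.log (1 / t) ^ (2 - 2 * ν) ≤ xi t) ∧
      ∀ᶠ s in 𝓝[>] (0 : ℝ),
        c' * s ^ (1 / (2 * ν - 1)) / Real.log (1 / s) ^ (2 * (1 / (2 * ν - 1) - 1)) ≤ WF.FE s := by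
  obtain ⟨C, hC, h1⟩ := area_low hν hν1 hc h
  obtain ⟨C', hC', h2⟩ := sys.g_upper_of_rho (j := 2) hν hν1 hC h1
  obtain ⟨c1, hc1, h3⟩ := sys.F_lower_of_rho (j := 2) hν hν1 hC h1
  refine ⟨C, min (1 / C') c1, lt_min (by positivity) hc1, ?_, ?_, ?_⟩
  · filter_upwards [sqrt_lim.eventually h1, ev_one] with u h4 ⟨h5, h6⟩
    rw [sqrt_pow h5, ← WF.RR_eq h5.le] at h4
    refine h4.trans ?_
    have hl : 0 ≤ Real.log (1 / u) := by
      apply Real.log_nonneg
      rw [le_div_iff₀ h5]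
      linarith
    have e : Real.log (1 / √u) = Real.log (1 / u) / 2 := by
      rw [one_div, Real.log_inv, Real.log_sqrt h5.le, one_div, Real.log_inv]
      ring
    rw [e]
    apply mul_le_mul_of_nonneg_left _ (by positivity)
    have : (Real.log (1 / u) / 2) ^ 2 = Real.log (1 / u) ^ 2 / 4 := by ring
    rw [this]
    nlinarith [sq_nonneg (Real.log (1 / u))]
  · filter_upwards [h2, ev_one, log_inv_lim.eventually (eventually_ge_atTop 1)] with t h4 ⟨h5, h6⟩ hL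
    have h7 := (g_xi h5).1
    have hx := xi_pos h5
    have e : ((2 : ℕ) : ℝ) * (1 - ν) = 2 - 2 * ν := by
      push_cast
      ring
    rw [e] at h4
    have hL0 : 0 < Real.log (1 / t) := by linarith
    have hLp : 0 < Real.log (1 / t) ^ (2 - 2 * ν) := Real.rpow_pos_of_pos hL0 _
    have htp : 0 < t ^ ν := Real.rpow_pos_of_pos h5 _
    have h8 := h7.trans h4
    rw [div_le_iff₀ hx] at h8
    rw [Real.rpow_neg h5.le, div_le_iff₀ hLp]
    have h9 : min (1 / C') c1 * (t ^ ν)⁻¹ ≤ 1 / C' * (t ^ ν)⁻¹ :=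
      mul_le_mul_of_nonneg_right (min_le_left _ _) (by positivity)
    refine h9.trans ?_
    rw [← div_eq_mul_inv, div_div, div_le_iff₀ (by positivity)]
    linarith
  · filter_upwards [h3, ev_one, log_inv_lim.eventually (eventually_ge_atTop 1)] with s h4 ⟨h5, h6⟩ hL
    have e : ((2 : ℕ) : ℝ) * (1 / (2 * ν - 1) - 1) = 2 * (1 / (2 * ν - 1) - 1) := by
      push_cast
      ring
    rw [e] at h4
    refine le_trans ?_ h4
    have hL0 : 0 < Real.log (1 / s) := by linarith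
    apply div_le_div_of_nonneg_right _ (Real.rpow_pos_of_pos hL0 _).le
    exact mul_le_mul_of_nonneg_right (min_le_right _ _) (Real.rpow_pos_of_pos h5 _).le

/-- consequences of the conjectured law of the mean area -/
theorem law {c : ℝ} (hc : 0 < c)
    (h : Tendsto (fun n : ℕ => ma n / (n : ℝ) ^ (3 / 2 : ℝ)) atTop (𝓝 c)) :
    sc = 0 ∧ ∃ C c' : ℝ, 0 < c' ∧
      (∀ᶠ u in 𝓝[>] (0 : ℝ), WF.RR u ≤ C * u ^ 2 * Real.log (1 / u) ^ 2) ∧
      (∀ᶠ t in 𝓝[>] (0 : ℝ), c' * t ^ (-(3 / 4) : ℝ) / √(Real.log (1 / t)) ≤ xi t) ∧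
      ∀ᶠ s in 𝓝[>] (0 : ℝ), c' * s ^ 2 / Real.log (1 / s) ^ 2 ≤ WF.FE s := by
  have h1 : ∀ᶠ n : ℕ in atTop, c / 2 * (n : ℝ) ^ (2 * (3 / 4) : ℝ) ≤ ma n := by
    filter_upwards [h.eventually_const_lt (show c / 2 < c by linarith), eventually_ge_atTop 1] with
      n h2 h3
    have hn0 : (0 : ℝ) < n := by exact_mod_cast h3
    rw [lt_div_iff₀ (by positivity)] at h2
    have e : (2 * (3 / 4) : ℝ) = 3 / 2 := by norm_num
    rw [e]
    exact h2.le
  constructor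
  · by_contra hcon
    have hsc : 0 < sc := lt_of_le_of_ne sc_nonneg (Ne.symm hcon)
    obtain ⟨C, hC⟩ := sc_area hsc
    have h2 : Tendsto (fun n : ℕ => C * (Real.log n ^ 2 / (n : ℝ) ^ (1 / 2 : ℝ))) atTop
        (𝓝 (C * 0)) := by
      apply Tendsto.const_mul
      have h3 : Tendsto (fun x : ℝ => Real.log x ^ (2 : ℝ) / x ^ (1 / 2 : ℝ)) atTop (𝓝 0) :=
        (isLittleO_log_rpow_rpow_atTop 2 (by norm_num)).tendsto_div_nhds_zero
      refine (h3.comp tendsto_natCast_atTop_atTop).congr ?_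
      intro n
      simp only [Function.comp]
      norm_num
    rw [mul_zero] at h2
    have h3 : c ≤ 0 := by
      refine le_of_tendsto_of_tendsto h h2 ?_
      filter_upwards [eventually_ge_atTop 2] with n hn
      have hn0 : (0 : ℝ) < n := by exact_mod_cast (by omega : 0 < n)
      rw [div_le_iff₀ (by positivity)]
      refine (hC n hn).trans (le_of_eq ?_)
      have e : (n : ℝ) ^ (3 / 2 : ℝ) = n * (n : ℝ) ^ (1 / 2 : ℝ) := by
        nth_rewrite 2 [← Real.rpow_one (n : ℝ)]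
        rw [← Real.rpow_add hn0]
        norm_num
      rw [e]
      field_simp
    linarith
  · obtain ⟨C, c', hc', h2, h3, h4⟩ := low_area (ν := 3 / 4) (by norm_num) (by norm_num)
      (by positivity) h1
    refine ⟨C, c', hc', ?_, ?_, ?_⟩
    · filter_upwards [h2] with u hu
      have e : (1 / (2 - 2 * (3 / 4)) : ℝ) = ((2 : ℕ) : ℝ) := by norm_num
      rwa [e, Real.rpow_natCast] at hu
    · filter_upwards [h3] with t ht
      have e : (2 - 2 * (3 / 4) : ℝ) = 1 / 2 := by norm_num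
      rwa [e, ← Real.sqrt_eq_rpow] at ht
    · filter_upwards [h4] with s hs
      have e : (1 / (2 * (3 / 4) - 1) : ℝ) = ((2 : ℕ) : ℝ) := by norm_num
      have e2 : (2 * (((2 : ℕ) : ℝ) - 1) : ℝ) = ((2 : ℕ) : ℝ) := by norm_num
      rwa [e, e2, Real.rpow_natCast, Real.rpow_natCast] at hs

end Pool.Agent.H557.IT
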