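import Pool.Agent.H557.IT.Tail

/-!
The correlation length and the areas of the Wulff shapes; the exponents.
-/

set_option autoImplicit false

open MeasureTheory Set Filter Topology

namespace Pool.Agent.H557.IT

open Pool.Agent.H26
open Pool.Agent.Y981.L2 (Lam Rate psi mass par ln area loops_finite ma)
open H981 (mu)

/-- the correlation length -/
noncomputable def xi (t : ℝ) : ℝ := 1 / mass t

theorem xi_pos {t : ℝ} (ht : 0 < t) : 0 < xi t := by
  unfold xi
  have := Y981.L2.mass_pos ht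
  positivity

/-- `1 / ξ ≤ g ≤ 2 / ξ` -/
theorem g_xi {t : ℝ} (ht : 0 < t) : 1 / xi t ≤ WF.g t ∧ WF.g t ≤ 2 / xi t := by
  have hm := Y981.L2.mass_pos ht
  unfold xi
  rw [one_div_one_div, div_div_eq_mul_div, div_one]
  have h1 := mass_le_V ht
  have h2 := V_le_mass ht
  rw [← g_sq] at h1 h2
  have hg := g_pos ht
  constructor
  · by_contra hcon
    push Not at hcon
    nlinarith
  · by_contra hcon
    push Not at hcon
    nlinarith

theorem om_xi {ν : ℝ} : OmPow xi (-ν) ↔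
    ∃ C : ℝ, 0 < C ∧ ∀ᶠ t in 𝓝[>] (0 : ℝ), WF.g t ≤ C * t ^ ν := by
  constructor
  · rintro ⟨c, hc, h⟩
    refine ⟨2 / c, by positivity, ?_⟩
    filter_upwards [h, ev_one] with t h1 ⟨h2, _⟩
    have h3 := (g_xi h2).2
    have hp : 0 < t ^ (-ν) := Real.rpow_pos_of_pos h2 _
    have h4 : 2 / xi t ≤ 2 / (c * t ^ (-ν)) :=
      div_le_div_of_nonneg_left (by norm_num) (by positivity) h1
    have h5 : 2 / (c * t ^ (-ν)) = 2 / c * t ^ ν := by
      rw [Real.rpow_neg h2.le]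
      field_simp
    linarith
  · rintro ⟨C, hC, h⟩
    refine ⟨1 / C, by positivity, ?_⟩
    filter_upwards [h, ev_one] with t h1 ⟨h2, _⟩
    have h3 := (g_xi h2).1
    have hx := xi_pos h2
    have hp : 0 < t ^ ν := Real.rpow_pos_of_pos h2 _
    have h4 : 1 / xi t ≤ C * t ^ ν := h3.trans h1
    rw [div_le_iff₀ hx] at h4
    rw [Real.rpow_neg h2.le, one_div, ← mul_inv, inv_le_iff_one_le_mul₀ (by positivity)]
    linarith

theorem oh_xi {ν : ℝ} : OhPow xi (-ν) ↔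
    ∃ c : ℝ, 0 < c ∧ ∀ᶠ t in 𝓝[>] (0 : ℝ), c * t ^ ν ≤ WF.g t := by
  constructor
  · intro h
    obtain ⟨C, hC, h⟩ := h.pos
    refine ⟨1 / C, by positivity, ?_⟩
    filter_upwards [h, ev_one] with t h1 ⟨h2, _⟩
    have h3 := (g_xi h2).1
    have hx := xi_pos h2
    have hp : 0 < t ^ (-ν) := Real.rpow_pos_of_pos h2 _
    have h4 : 1 / (C * t ^ (-ν)) ≤ 1 / xi t :=
      div_le_div_of_nonneg_left (by norm_num) hx h1
    have h5 : 1 / (C * t ^ (-ν)) = 1 / C * t ^ ν := by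
      rw [Real.rpow_neg h2.le]
      field_simp
    linarith
  · rintro ⟨c, hc, h⟩
    refine ⟨2 / c, ?_⟩
    filter_upwards [h, ev_one] with t h1 ⟨h2, _⟩
    have h3 := (g_xi h2).2
    have hx := xi_pos h2
    have hp : 0 < t ^ ν := Real.rpow_pos_of_pos h2 _
    have h4 : c * t ^ ν ≤ 2 / xi t := h1.trans h3
    rw [le_div_iff₀ hx] at h4
    rw [Real.rpow_neg h2.le, ← div_eq_mul_inv, le_div_iff₀ hp, le_div_iff₀ hc]
    linarith

theorem expo_xi {ν : ℝ} : Expo xi (-ν) ↔ Expo WF.g ν := by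
  have hlim : Tendsto (fun t => Real.log (xi t) / Real.log t + Real.log (WF.g t) / Real.log t)
      (𝓝[>] 0) (𝓝 0) := by
    have h1 : Tendsto (fun t : ℝ => Real.log 2 / |Real.log t|) (𝓝[>] 0) (𝓝 0) := by
      have h2 : Tendsto (fun t : ℝ => |Real.log t|) (𝓝[>] 0) atTop :=
        tendsto_abs_atBot_atTop.comp Real.tendsto_log_nhdsGT_zero
      exact h2.const_div_atTop _
    apply squeeze_zero_norm' _ h1
    filter_upwards [ev_one] with t ⟨h2, h3⟩
    obtain ⟨h4, h5⟩ := g_xi h2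
    have hx := xi_pos h2
    have hg := g_pos h2
    have hl : Real.log t < 0 := Real.log_neg h2 h3
    rw [← add_div, norm_div, Real.norm_eq_abs, Real.norm_eq_abs]
    apply div_le_div_of_nonneg_right _ (abs_nonneg _)
    rw [← Real.log_mul hx.ne' hg.ne']
    rw [div_le_iff₀ hx] at h4
    rw [le_div_iff₀ hx] at h5
    have h6 : 0 ≤ Real.log (xi t * WF.g t) := Real.log_nonneg (by linarith)
    rw [abs_of_nonneg h6]
    exact Real.log_le_log (by positivity) (by linarith)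
  unfold Expo
  constructor
  · intro h
    have h1 := hlim.sub h
    rw [zero_sub, neg_neg] at h1
    refine h1.congr ?_
    intro t
    ring
  · intro h
    have h1 := hlim.sub h
    rw [zero_sub] at h1
    refine h1.congr ?_
    intro t
    ring

theorem expo_rho {ν : ℝ} : Expo WF.RR (1 / (2 - 2 * ν)) ↔ Expo WF.rho (1 / (1 - ν)) := by
  have e : 1 / (1 - ν) = 2 * (1 / (2 - 2 * ν)) := by
    rw [show 2 - 2 * ν = 2 * (1 - ν) by ring, ← one_div_mul_one_div]
    ring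
  unfold Expo
  constructor
  · intro h
    rw [e]
    refine ((h.comp sq_lim).const_mul 2).congr' ?_
    filter_upwards [ev_one] with x ⟨h1, _⟩
    simp only [Function.comp]
    rw [← WF.rho_eq h1.le, Real.log_pow]
    push_cast
    rw [mul_div_assoc', mul_div_mul_left _ _ two_ne_zero]
  · intro h
    have h1 := (h.comp sqrt_lim).const_mul (1 / 2)
    have e2 : 1 / 2 * (1 / (1 - ν)) = 1 / (2 - 2 * ν) := by
      rw [e]
      ring
    rw [e2] at h1
    refine h1.congr' ?_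
    filter_upwards [ev_one] with x ⟨h1, _⟩
    simp only [Function.comp]
    rw [← WF.RR_eq h1.le, Real.log_sqrt h1.le]
    field_simp

/-- the three exponents -/
theorem expo_tfae {ν : ℝ} (hν : 1 / 2 < ν) (hν1 : ν < 1) :
    (Expo xi (-ν) ↔ Expo WF.RR (1 / (2 - 2 * ν))) ∧
      (Expo xi (-ν) ↔ Expo WF.FE (1 / (2 * ν - 1))) := by
  have h1ν : 0 < 1 - ν := by linarith
  constructor
  · rw [expo_xi, expo_rho]
    unfold Expo
    rw [exp_iff (fun E hE => (g_pos hE).le) (by linarith : 0 < ν)]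
    have h2 : ∀ f : ℝ → ℝ, (∀ᶠ s in 𝓝[>] (0 : ℝ), 0 ≤ f s) → ∀ a : ℝ, 0 < a →
        (Tendsto (fun s => Real.log (f s) / Real.log s) (𝓝[>] 0) (𝓝 a) ↔
          ∀ ε : ℝ, 0 < ε → ∀ᶠ s in 𝓝[>] (0 : ℝ), s ^ (a + ε) ≤ f s ∧ f s ≤ s ^ (a - ε)) := by
      intro f hf a ha
      have h3 := exp_iff (f := fun s => max (f s) 0) (fun s _ => le_max_right _ _) ha
      have h4 : ∀ᶠ s in 𝓝[>] (0 : ℝ), max (f s) 0 = f s := hf.mono fun s hs => max_eq_left hs
      have h5 : Tendsto (fun s => Real.log (max (f s) 0) / Real.log s) (𝓝[>] 0) (𝓝 a) ↔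
          Tendsto (fun s => Real.log (f s) / Real.log s) (𝓝[>] 0) (𝓝 a) := by
        apply tendsto_congr'
        filter_upwards [h4] with s hs
        rw [hs]
      rw [← h5, h3]
      constructor
      · intro h ε hε
        filter_upwards [h ε hε, h4] with s h6 h7
        rwa [h7] at h6
      · intro h ε hε
        filter_upwards [h ε hε, h4] with s h6 h7
        rwa [h7]
    rw [h2 WF.rho _ (1 / (1 - ν)) (by positivity)]
    · exact sys.exponent_rho hν hν1
    · filter_upwards [ev_one, ev_le (show (0 : ℝ) < 1 / 2 by norm_num)] with x ⟨h3, _⟩ h4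
      exact WF.rho_nonneg h3.le h4
  · rw [expo_xi]
    exact sys.exponent hν hν1

/-- the upper half -/
theorem up_tfae {ν : ℝ} (hν : 1 / 2 < ν) (hν1 : ν < 1) :
    (OhPow xi (-ν) ↔ OmPow WF.RR (1 / (2 - 2 * ν))) ∧
      (OhPow xi (-ν) ↔ OhPow WF.FE (1 / (2 * ν - 1))) := by
  have h1 : OhPow xi (-ν) → OmPow WF.RR (1 / (2 - 2 * ν)) := by
    intro h
    obtain ⟨c, hc, h⟩ := oh_xi.1 h
    obtain ⟨E1, hE1, h⟩ := near h
    exact om_rho.2 (sys.rho_of_g hν1 hc hE1 h)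
  have h2 : OmPow WF.RR (1 / (2 - 2 * ν)) → OhPow WF.FE (1 / (2 * ν - 1)) := by
    intro h
    obtain ⟨c, hc, h⟩ := om_rho.1 h
    obtain ⟨C, -, h⟩ := sys.F_of_rho hν hν1 hc h
    exact ⟨C, h⟩
  have h3 : OhPow WF.FE (1 / (2 * ν - 1)) → OhPow xi (-ν) := by
    intro h
    obtain ⟨C, hC, h⟩ := h.pos
    obtain ⟨c, hc, h⟩ := sys.g_lower hν hν1 hC h
    refine oh_xi.2 ⟨c, hc, ?_⟩
    filter_upwards [ev_one] with t ⟨h1, h2⟩
    exact h t h1 h2.le
  exact ⟨⟨h1, fun h => h3 (h2 h)⟩, ⟨fun h => h2 (h1 h), h3⟩⟩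

/-- the lower half -/
theorem low_tfae {ν : ℝ} (hν : 1 / 2 < ν) (hν1 : ν < 1) :
    (OmPow xi (-ν) ↔ OhPow WF.RR (1 / (2 - 2 * ν))) ∧
      (OmPow xi (-ν) → OmPow WF.FE (1 / (2 * ν - 1))) := by
  have h1ν : 0 < 1 - ν := by linarith
  have ha0 : 0 < 1 / (1 - ν) := by positivity
  constructor
  · constructor
    · intro h
      obtain ⟨C, hC, h⟩ := om_xi.1 h
      obtain ⟨E1, hE1, h⟩ := near h
      obtain ⟨K, hK, h7⟩ := sys.rho_upper (ν := ν) (C := C) (E1 := E1) (k := 0) hν hν1 hC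
        (by
          intro E hE0 hE
          rw [pow_zero, mul_one]
          exact h E hE0 hE)
      have hE : ∀ᶠ x in 𝓝[>] (0 : ℝ), K ^ (1 / (1 - ν)) * x ^ (1 / (1 - ν)) ≤ min E1 1 := by
        have h1 := (rpow_zero_lim ha0).const_mul (K ^ (1 / (1 - ν)))
        rw [mul_zero] at h1
        exact h1.eventually_le_const (lt_min hE1 one_pos)
      have hK0 : 0 < K := by linarith
      refine oh_rho.2 ⟨2 * K ^ (1 / (1 - ν)), by positivity, ?_⟩
      filter_upwards [ev_one, ev_le (show (0 : ℝ) < 1 / 2 by norm_num),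
        log_inv_lim.eventually (eventually_ge_atTop 1), hE] with x ⟨h0, h01⟩ hx1 hL hxE
      rw [← Real.mul_rpow hK0.le h0.le] at hxE
      have h10 := h7 x h0 hx1 hL (by rwa [pow_zero, mul_one])
      rw [pow_zero, mul_one, Real.mul_rpow hK0.le h0.le, ← mul_assoc] at h10
      exact h10
    · intro h
      obtain ⟨C, hC, h⟩ := oh_rho.1 h
      obtain ⟨C', hC', h⟩ := sys.g_upper_of_rho (j := 0) hν hν1 hC (by
        filter_upwards [h] with x hx
        rwa [pow_zero, mul_one])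
      refine om_xi.2 ⟨C', hC', ?_⟩
      filter_upwards [h] with t ht
      rwa [Nat.cast_zero, zero_mul, Real.rpow_zero, mul_one] at ht
  · intro h
    obtain ⟨C, hC, h⟩ := om_xi.1 h
    obtain ⟨E1, hE1, h⟩ := near h
    obtain ⟨c, hc, h⟩ := sys.F_lower (ν := ν) (C := C) (E1 := E1) (k := 0) hν hν1 hC hE1 (by
      intro E hE0 hE
      rw [pow_zero, mul_one]
      exact h E hE0 hE)
    refine ⟨c, hc, ?_⟩
    filter_upwards [h] with s hs
    rwa [mul_zero, pow_zero, div_one] at hs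

/-! ### the threshold -/

/-- the threshold -/
noncomputable def sc : ℝ := sInf {y : ℝ | ∃ t : ℝ, 0 < t ∧ y = WF.V t / (2 * t)}

theorem sc_glb : IsGLB {y : ℝ | ∃ t : ℝ, 0 < t ∧ y = WF.V t / (2 * t)} sc := by
  apply isGLB_csInf
  · exact ⟨_, 1, one_pos, rfl⟩
  · refine ⟨0, ?_⟩
    rintro _ ⟨t, ht, rfl⟩
    have := WF.V_nonneg t
    positivity

theorem sc_nonneg : 0 ≤ sc := by
  apply sc_glb.2
  rintro _ ⟨t, ht, rfl⟩
  have := WF.V_nonneg t
  positivity

theorem sc_le {t : ℝ} (ht : 0 < t) : 2 * sc * t ≤ WF.g t ^ 2 := by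
  have h := sc_glb.1 ⟨t, ht, rfl⟩
  rw [le_div_iff₀ (by positivity)] at h
  rw [g_sq]
  linarith

theorem FE_zero {s : ℝ} (hs : s ≤ sc) : WF.FE s = 0 :=
  sys.F_zero sc_nonneg (fun _ hE => sc_le hE) hs

theorem FE_pos {s : ℝ} (hs : sc < s) : 0 < WF.FE s := by
  apply sys.F_pos (sc_nonneg.trans hs.le)
  by_contra hcon
  push Not at hcon
  have : s ≤ sc := by
    apply sc_glb.2
    rintro _ ⟨t, ht, rfl⟩
    rw [le_div_iff₀ (by positivity), ← g_sq]
    have := hcon t ht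
    linarith
  linarith

theorem sc_xi {t : ℝ} (ht : 0 < t) : sc * (t * xi t ^ 2) ≤ 2 := by
  have h1 := sc_le ht
  have h2 := (g_xi ht).2
  have hx := xi_pos ht
  have hg := g_pos ht
  rw [le_div_iff₀ hx] at h2
  have h3 : (WF.g t * xi t) ^ 2 ≤ 2 ^ 2 := pow_le_pow_left₀ (by positivity) h2 2
  have h4 := mul_le_mul_of_nonneg_right h1 (sq_nonneg (xi t))
  have h5 : WF.g t ^ 2 * xi t ^ 2 = (WF.g t * xi t) ^ 2 := by ring
  rw [h5] at h4
  linarith

theorem xi_sc {S : ℝ} (h : ∀ t : ℝ, 0 < t → t * xi t ^ 2 ≤ S) : 1 ≤ sc * S := by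
  have hS : 0 < S := by
    have := xi_pos one_pos
    have h1 := h 1 one_pos
    have : 0 < 1 * xi 1 ^ 2 := by positivity
    linarith
  rw [← div_le_iff₀ hS]
  apply sc_glb.2
  rintro _ ⟨t, ht, rfl⟩
  have hm := Y981.L2.mass_pos ht
  have h1 := h t ht
  have h2 := mass_le_V ht
  unfold xi at h1
  rw [div_le_div_iff₀ hS (by positivity)]
  have h3 : t ≤ S * mass t ^ 2 := by
    have h4 : t * (1 / mass t) ^ 2 = t / mass t ^ 2 := by
      rw [one_div, inv_pow, ← div_eq_mul_inv]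
    rw [h4, div_le_iff₀ (by positivity)] at h1
    exact h1
  have h4 := mul_le_mul_of_nonneg_right h2 hS.le
  linarith

theorem RR_sc {u : ℝ} (hu : 0 ≤ u) (hu4 : u ≤ 1 / 4) : sc * u ≤ WF.RR u := by
  have h1 := WF.le_FE sc (u := u) ⟨hu, hu4⟩
  rw [FE_zero le_rfl] at h1
  linarith

end Pool.Agent.H557.IT
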