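import Pool.Agent.H557.IT.Fin
import Pool.Agent.H26.WS.Press

/-!
The mean area under pressure near the threshold.
-/

set_option autoImplicit false

open MeasureTheory Set Filter Topology

namespace Pool.Agent.H557.IT

open Pool.Agent.H26
open Pool.Agent.Y981.L2 (Lam Rate psi mass par ln area loops_finite ma)
open H981 (mu)

theorem F_le_a (s : ℝ) : WF.FE s ≤ s * WF.am s := by
  have h1 := WF.am_eq s
  have h2 := WF.RR_nonneg (WF.am_mem s).1
  linarith

theorem a_le_F (s : ℝ) : s * WF.am s ≤ WF.FE (2 * s) := by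
  have h1 := WF.am_eq s
  have h2 := WF.le_FE (2 * s) (WF.am_mem s).1
  have h3 := WF.FE_nonneg s
  linarith

theorem am_below {s : ℝ} (hs : s < sc) : WF.am s = 0 := by
  obtain ⟨s', h1, h2⟩ := exists_between hs
  have h3 := WF.le_FE s' (WF.am_mem s).1
  rw [FE_zero h2.le] at h3
  have h4 := WF.am_eq s
  have h5 := WF.FE_nonneg s
  have h6 : (s' - s) * WF.am s ≤ 0 := by linarith
  apply le_antisymm _ (WF.am_nonneg s)
  by_contra hcon
  push Not at hcon
  have := mul_pos (sub_pos.2 h1) hcon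
  linarith

theorem am_above {s : ℝ} (hs : sc < s) : 0 < WF.am s := by
  have h1 := FE_pos hs
  have h2 := F_le_a s
  have h3 : 0 < s := sc_nonneg.trans_lt hs
  by_contra hcon
  push Not at hcon
  have := mul_nonpos_of_nonneg_of_nonpos h3.le hcon
  linarith

theorem half_lim : Tendsto (fun s : ℝ => s / 2) (𝓝[>] 0) (𝓝[>] 0) := by
  apply tendsto_nhdsWithin_iff.2
  constructor
  · have : Tendsto (fun s : ℝ => s / 2) (𝓝 0) (𝓝 (0 / 2)) := tendsto_id.div_const 2
    rw [zero_div] at this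
    exact this.mono_left nhdsWithin_le_nhds
  · filter_upwards [eventually_mem_nhdsWithin] with s hs
    have : 0 < s := hs
    show 0 < s / 2
    linarith

theorem two_lim : Tendsto (fun s : ℝ => 2 * s) (𝓝[>] 0) (𝓝[>] 0) := by
  apply tendsto_nhdsWithin_iff.2
  constructor
  · have : Tendsto (fun s : ℝ => 2 * s) (𝓝 0) (𝓝 (2 * 0)) := tendsto_id.const_mul 2
    rw [mul_zero] at this
    exact this.mono_left nhdsWithin_le_nhds
  · filter_upwards [eventually_mem_nhdsWithin] with s hs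
    have : 0 < s := hs
    show 0 < 2 * s
    linarith

theorem pow_split {s : ℝ} (hs : 0 < s) (q : ℝ) : s ^ q = s * s ^ (q - 1) := by
  nth_rewrite 2 [← Real.rpow_one s]
  rw [← Real.rpow_add hs]
  congr 1
  ring

theorem oh_a {q : ℝ} : OhPow WF.FE q ↔ OhPow WF.am (q - 1) := by
  constructor
  · intro h
    obtain ⟨C, hC, h⟩ := h.pos
    refine ⟨C * 2 ^ q, ?_⟩
    filter_upwards [two_lim.eventually h, ev_one] with s h1 ⟨h2, _⟩
    have h3 := (a_le_F s).trans h1
    rw [Real.mul_rpow (by norm_num) h2.le, pow_split h2 q] at h3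
    have h4 : s * WF.am s ≤ s * (C * 2 ^ q * s ^ (q - 1)) := by linarith
    exact le_of_mul_le_mul_left h4 h2
  · rintro ⟨C, h⟩
    refine ⟨C, ?_⟩
    filter_upwards [h, ev_one] with s h1 ⟨h2, _⟩
    rw [pow_split h2 q]
    have h3 := mul_le_mul_of_nonneg_left h1 h2.le
    have h4 := F_le_a s
    linarith

theorem om_a {q : ℝ} : OmPow WF.FE q ↔ OmPow WF.am (q - 1) := by
  constructor
  · rintro ⟨c, hc, h⟩
    refine ⟨c, hc, ?_⟩
    filter_upwards [h, ev_one] with s h1 ⟨h2, _⟩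
    have h3 := h1.trans (F_le_a s)
    rw [pow_split h2 q] at h3
    have h4 : s * (c * s ^ (q - 1)) ≤ s * WF.am s := by linarith
    exact le_of_mul_le_mul_left h4 h2
  · rintro ⟨c, hc, h⟩
    refine ⟨c * (1 / 2) ^ q, by positivity, ?_⟩
    filter_upwards [half_lim.eventually h, ev_one] with s h1 ⟨h2, _⟩
    have h2' : 0 < s / 2 := by linarith
    have h3 := a_le_F (s / 2)
    rw [mul_div_cancel₀ _ two_ne_zero] at h3
    have h4 := mul_le_mul_of_nonneg_left h1 h2'.le
    have h5 : s / 2 * (c * (s / 2) ^ (q - 1)) = c * (s / 2) ^ q := by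
      rw [pow_split h2' q]
      ring
    rw [h5] at h4
    have h6 : (s / 2) ^ q = (1 / 2) ^ q * s ^ q := by
      rw [← Real.mul_rpow (by norm_num) h2.le]
      congr 1
      ring
    rw [h6] at h4
    linarith

theorem ex_a {q : ℝ} (hq : 1 < q) : Expo WF.FE q ↔ Expo WF.am (q - 1) := by
  unfold Expo
  rw [exp_iff (fun s _ => WF.FE_nonneg s) (by linarith : 0 < q),
    exp_iff (fun s _ => WF.am_nonneg s) (by linarith : 0 < q - 1)]
  constructor
  · intro h ε hε
    filter_upwards [h ε hε, two_lim.eventually (h (ε / 2) (by linarith)), ev_one,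
      pow_key2 (c := 2 ^ (q - ε / 2)) (by positivity) (show 0 < ε / 2 by linarith)
        (q - 1 - ε / 2)] with s ⟨h1, _⟩ ⟨_, h2⟩ ⟨h3, h3'⟩ h4
    constructor
    · have h5 := h1.trans (F_le_a s)
      rw [pow_split h3] at h5
      have h6 := le_of_mul_le_mul_left h5 h3
      rwa [show q + ε - 1 = q - 1 + ε by ring] at h6
    · have h5 := (a_le_F s).trans h2
      rw [Real.mul_rpow (by norm_num) h3.le, pow_split h3 (q - ε / 2)] at h5
      have h6 : s * WF.am s ≤ s * (2 ^ (q - ε / 2) * s ^ (q - ε / 2 - 1)) := by linarith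
      have h7 := le_of_mul_le_mul_left h6 h3
      rw [show q - ε / 2 - 1 = q - 1 - ε / 2 by ring] at h7
      refine (h7.trans h4).trans (le_of_eq ?_)
      congr 1
      ring
  · intro h ε hε
    filter_upwards [h ε hε, half_lim.eventually (h (ε / 2) (by linarith)), ev_one,
      pow_key (c := (1 / 2) ^ (q + ε / 2)) (by positivity) (show 0 < ε / 2 by linarith)
        (q + ε / 2)] with s ⟨_, h1⟩ ⟨h2, _⟩ ⟨h3, h3'⟩ h4
    constructor
    · have h2' : 0 < s / 2 := by linarith
      have h5 := a_le_F (s / 2)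
      rw [mul_div_cancel₀ _ two_ne_zero] at h5
      have h6 := mul_le_mul_of_nonneg_left h2 h2'.le
      have h7 : s / 2 * (s / 2) ^ (q - 1 + ε / 2) = (1 / 2) ^ (q + ε / 2) * s ^ (q + ε / 2) := by
        rw [← Real.mul_rpow (by norm_num) h3.le, show (1 / 2 : ℝ) * s = s / 2 by ring,
          pow_split h2' (q + ε / 2), show q + ε / 2 - 1 = q - 1 + ε / 2 by ring]
      rw [h7] at h6
      have h8 := h4.trans (h6.trans h5)
      rwa [show q + ε / 2 + ε / 2 = q + ε by ring] at h8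
    · have h5 := F_le_a s
      have h6 := mul_le_mul_of_nonneg_left h1 h3.le
      rw [pow_split h3 (q - ε), show q - ε - 1 = q - 1 - ε by ring]
      linarith

theorem div_a {c q e : ℝ} (h : ∀ᶠ s in 𝓝[>] (0 : ℝ), c * s ^ q / Real.log (1 / s) ^ e ≤ WF.FE s) :
    ∀ᶠ s in 𝓝[>] (0 : ℝ), c * s ^ (q - 1) / Real.log (1 / s) ^ e ≤ WF.am s := by
  filter_upwards [h, ev_one] with s h1 ⟨h2, _⟩
  have h3 := h1.trans (F_le_a s)
  rw [pow_split h2 q] at h3
  have h4 : s * (c * s ^ (q - 1) / Real.log (1 / s) ^ e) ≤ s * WF.am s := by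
    refine le_trans (le_of_eq ?_) h3
    ring
  exact le_of_mul_le_mul_left h4 h2

theorem div_a2 {c : ℝ} (h : ∀ᶠ s in 𝓝[>] (0 : ℝ), c * s ^ 2 / Real.log (1 / s) ^ 2 ≤ WF.FE s) :
    ∀ᶠ s in 𝓝[>] (0 : ℝ), c * s / Real.log (1 / s) ^ 2 ≤ WF.am s := by
  filter_upwards [h, ev_one] with s h1 ⟨h2, _⟩
  have h3 := h1.trans (F_le_a s)
  have h4 : s * (c * s / Real.log (1 / s) ^ 2) ≤ s * WF.am s := by
    refine le_trans (le_of_eq ?_) h3
    ring
  exact le_of_mul_le_mul_left h4 h2

end Pool.Agent.H557.IT
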