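import Pool.Agent.H557.IT.Area
import Pool.Agent.H557.IT.Abs5

/-!
The tail of the area; power bounds of the functions at `0`.
-/

set_option autoImplicit false

open MeasureTheory Set Filter Topology

namespace Pool.Agent.H557.IT

open Pool.Agent.H26
open Pool.Agent.Y981.L2 (Lam Rate psi mass par ln area loops_finite ma)
open H981 (mu)

/-- `f(t) ≤ C t^e` for small `t > 0` -/
def OhPow (f : ℝ → ℝ) (e : ℝ) : Prop := ∃ C : ℝ, ∀ᶠ t in 𝓝[>] (0 : ℝ), f t ≤ C * t ^ e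

/-- `f(t) ≥ c t^e` for small `t > 0` -/
def OmPow (f : ℝ → ℝ) (e : ℝ) : Prop := ∃ c : ℝ, 0 < c ∧ ∀ᶠ t in 𝓝[>] (0 : ℝ), c * t ^ e ≤ f t

/-- `f(t) = t^(e + o(1))` -/
def Expo (f : ℝ → ℝ) (e : ℝ) : Prop :=
  Tendsto (fun t => Real.log (f t) / Real.log t) (𝓝[>] 0) (𝓝 e)

theorem OhPow.pos {f : ℝ → ℝ} {e : ℝ} (h : OhPow f e) :
    ∃ C : ℝ, 0 < C ∧ ∀ᶠ t in 𝓝[>] (0 : ℝ), f t ≤ C * t ^ e := by
  obtain ⟨C, hC⟩ := h
  refine ⟨max C 1, lt_max_of_lt_right one_pos, ?_⟩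
  filter_upwards [hC, ev_one] with t h1 ⟨h2, _⟩
  exact h1.trans (mul_le_mul_of_nonneg_right (le_max_left _ _) (Real.rpow_pos_of_pos h2 _).le)

theorem RR_all_low {p : ℝ} (hp : 0 < p) (h : OmPow WF.RR p) :
    ∃ c : ℝ, 0 < c ∧ ∀ u : ℝ, 0 < u → u ≤ 1 / 4 → c * u ^ p ≤ WF.RR u := by
  obtain ⟨c, hc, h⟩ := h
  obtain ⟨u1, hu1, hu1', h⟩ := near2 h
  obtain ⟨u2, hu2⟩ : ∃ u2, u2 = min u1 (1 / 4) := ⟨_, rfl⟩
  have h20 : 0 < u2 := by rw [hu2]; exact lt_min hu1 (by norm_num)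
  have h21 : u2 ≤ u1 := by rw [hu2]; exact min_le_left _ _
  have h24 : u2 ≤ 1 / 4 := by rw [hu2]; exact min_le_right _ _
  have hr : 0 < WF.RR u2 := by
    have := WF.RR_strict (show (0 : ℝ) ∈ Icc (0 : ℝ) (1 / 4) by norm_num) ⟨h20.le, h24⟩ h20
    rwa [WF.RR_zero] at this
  refine ⟨min c (WF.RR u2), lt_min hc hr, ?_⟩
  intro u hu hu4
  have hup : 0 < u ^ p := Real.rpow_pos_of_pos hu _
  rcases le_total u u2 with h1 | h1
  · exact (mul_le_mul_of_nonneg_right (min_le_left _ _) hup.le).trans (h u hu (h1.trans h21))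
  · have h2 : WF.RR u2 ≤ WF.RR u := WF.RR_strict.monotoneOn ⟨h20.le, h24⟩ ⟨hu.le, hu4⟩ h1
    have h3 : u ^ p ≤ 1 := Real.rpow_le_one hu.le (by linarith) hp.le
    have h4 : min c (WF.RR u2) * u ^ p ≤ WF.RR u2 * 1 :=
      mul_le_mul (min_le_right _ _) h3 hup.le hr.le
    linarith

theorem RR_all_up {p : ℝ} (hp : 0 < p) (h : OhPow WF.RR p) :
    ∃ C : ℝ, 0 < C ∧ ∀ u : ℝ, 0 < u → u ≤ 1 / 4 → WF.RR u ≤ C * u ^ p := by
  obtain ⟨C, hC, h⟩ := h.pos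
  obtain ⟨u1, hu1, hu1', h⟩ := near2 h
  have hr : 0 ≤ WF.RR (1 / 4) := WF.RR_nonneg ⟨by norm_num, le_rfl⟩
  have hu1p : 0 < u1 ^ p := Real.rpow_pos_of_pos hu1 _
  refine ⟨C + WF.RR (1 / 4) / u1 ^ p, by positivity, ?_⟩
  intro u hu hu4
  have hup : 0 < u ^ p := Real.rpow_pos_of_pos hu _
  rw [add_mul]
  rcases le_total u u1 with h1 | h1
  · have h2 := h u hu h1
    have h3 : 0 ≤ WF.RR (1 / 4) / u1 ^ p * u ^ p := by positivity
    linarith
  · have h2 : WF.RR u ≤ WF.RR (1 / 4) :=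
      WF.RR_strict.monotoneOn ⟨hu.le, hu4⟩ ⟨by norm_num, le_rfl⟩ hu4
    have h3 : u1 ^ p ≤ u ^ p := Real.rpow_le_rpow hu1.le h1 hp.le
    have h4 : WF.RR (1 / 4) ≤ WF.RR (1 / 4) / u1 ^ p * u ^ p := by
      rw [div_mul_eq_mul_div, le_div_iff₀ hu1p]
      exact mul_le_mul_of_nonneg_left h3 hr
    have h5 : 0 ≤ C * u ^ p := by positivity
    linarith

theorem par_zero {n : ℕ} (hn : 1 ≤ n) {a : ℝ} (ha : (n : ℝ) ^ 2 / 4 < a) : par n a = 0 := by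
  unfold par
  have : {f : ZMod (2 * n) → ℤ × ℤ | H981.IsLoop (2 * n) f ∧ a ≤ area (2 * n) f} = ∅ := by
    ext f
    simp only [mem_ofPred_eq, mem_empty_iff_false, iff_false, not_and, not_le]
    intro hf
    have := WF.area_quarter hn hf
    linarith
  rw [this]
  simp

/-- lower bounds of the rate function give upper bounds of the tail -/
theorem tail_up {p c : ℝ} (hc : 0 < c)
    (h : ∀ u : ℝ, 0 < u → u ≤ 1 / 4 → c * u ^ p ≤ WF.RR u) :
    ∃ C c' : ℝ, 0 < c' ∧ ∀ n : ℕ, 2 ≤ n → ∀ a : ℝ, 0 < a →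
      par n a ≤ Real.exp (C * Real.log n ^ 2 - c' * (n * (a / (n : ℝ) ^ 2) ^ p)) := by
  obtain ⟨C0, hC0, hup⟩ := H26.UN.unif_up (ε := 1 / 2) (by norm_num) (by norm_num)
  refine ⟨C0, c * (1 / 2) ^ p, by positivity, ?_⟩
  intro n hn a ha
  have hn0 : (0 : ℝ) < n := by exact_mod_cast (by omega : 0 < n)
  rcases le_or_gt a ((n : ℝ) ^ 2 / 4) with h1 | h1
  · have hu0 : 0 < a / (n : ℝ) ^ 2 := by positivity
    have hu4 : a / (n : ℝ) ^ 2 ≤ 1 / 4 := by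
      rw [div_le_iff₀ (by positivity)]
      linarith
    have h2 := hup n hn _ hu0 hu4
    rw [div_mul_cancel₀ _ (by positivity)] at h2
    refine h2.trans (Real.exp_le_exp.2 ?_)
    have h3 := h ((1 - 1 / 2) * (a / (n : ℝ) ^ 2)) (by positivity) (by linarith)
    have e1 : ((1 - 1 / 2) * (a / (n : ℝ) ^ 2)) ^ p = (1 / 2) ^ p * (a / (n : ℝ) ^ 2) ^ p := by
      rw [Real.mul_rpow (by norm_num) hu0.le]
      norm_num
    rw [e1] at h3
    have h4 := mul_le_mul_of_nonneg_left h3 hn0.le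
    linarith
  · rw [par_zero (by omega) h1]
    exact (Real.exp_pos _).le

/-- upper bounds of the tail give lower bounds of the rate function -/
theorem RR_of_tail {p c C : ℝ} (h : ∀ n : ℕ, 2 ≤ n → ∀ a : ℝ, 0 < a →
      par n a ≤ Real.exp (C * Real.log n ^ 2 - c * (n * (a / (n : ℝ) ^ 2) ^ p)))
    {u : ℝ} (hu : 0 < u) (hu4 : u < 1 / 4) : c * u ^ p ≤ WF.RR u := by
  have h1 := (WF.tendsto_par hu hu4).neg
  rw [neg_neg] at h1
  have hlog : Tendsto (fun n : ℕ => C * (Real.log n ^ 2 / n)) atTop (𝓝 (C * 0)) := by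
    apply Tendsto.const_mul
    have h2 : Tendsto (fun x : ℝ => Real.log x ^ 2 / x) atTop (𝓝 0) :=
      (Real.isLittleO_pow_log_id_atTop (n := 2)).tendsto_div_nhds_zero
    exact h2.comp tendsto_natCast_atTop_atTop
  rw [mul_zero] at hlog
  have h2 : Tendsto (fun n : ℕ => c * u ^ p - C * (Real.log n ^ 2 / n)) atTop
      (𝓝 (c * u ^ p - 0)) := hlog.const_sub _
  rw [sub_zero] at h2
  refine le_of_tendsto_of_tendsto h2 h1 ?_
  filter_upwards [eventually_ge_atTop 2, WF.ev_par hu hu4 one_pos] with n hn ⟨h4, _⟩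
  have hn0 : (0 : ℝ) < n := by exact_mod_cast (by omega : 0 < n)
  have h3 := h n hn (u * (n : ℝ) ^ 2) (by positivity)
  rw [mul_div_assoc, div_self (by positivity), mul_one] at h3
  have h5 : 0 < par n (u * (n : ℝ) ^ 2) := (Real.exp_pos _).trans_le h4
  have h6 := Real.log_le_log h5 h3
  rw [Real.log_exp] at h6
  rw [← neg_div, le_div_iff₀ hn0]
  have e1 : (c * u ^ p - C * (Real.log n ^ 2 / n)) * n = c * (n * u ^ p) - C * Real.log n ^ 2 := by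
    field_simp
  rw [e1]
  linarith

/-- upper bounds of the rate function give lower bounds of the tail -/
theorem tail_low {p C : ℝ} (hC : 0 < C)
    (h : ∀ u : ℝ, 0 < u → u ≤ 1 / 4 → WF.RR u ≤ C * u ^ p) :
    ∃ C' : ℝ, ∀ᶠ n : ℕ in atTop, ∀ a : ℝ, 0 < a → a ≤ (n : ℝ) ^ 2 / 8 →
      Real.exp (-(C' * Real.log n ^ 2) - C' * (n * (a / (n : ℝ) ^ 2) ^ p)) ≤ par n a := by
  obtain ⟨C0, n₀, hC0, hn₀, hlow⟩ := H26.UN.unif_low (ε := 1 / 2) (by norm_num) (by norm_num)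
  refine ⟨C0 + C * (3 / 2) ^ p, ?_⟩
  filter_upwards [eventually_ge_atTop n₀] with n hn a ha ha8
  have hn0 : (0 : ℝ) < n := by exact_mod_cast (by omega : 0 < n)
  have hu0 : 0 < a / (n : ℝ) ^ 2 := by positivity
  have hu8 : a / (n : ℝ) ^ 2 ≤ 1 / 8 := by
    rw [div_le_iff₀ (by positivity)]
    linarith
  have h2 := hlow n hn _ hu0 (by linarith)
  rw [div_mul_cancel₀ _ (by positivity)] at h2
  refine le_trans (Real.exp_le_exp.2 ?_) h2
  have h3 := h ((1 + 1 / 2) * (a / (n : ℝ) ^ 2)) (by positivity) (by linarith)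
  have e1 : ((1 + 1 / 2) * (a / (n : ℝ) ^ 2)) ^ p = (3 / 2) ^ p * (a / (n : ℝ) ^ 2) ^ p := by
    rw [Real.mul_rpow (by norm_num) hu0.le]
    norm_num
  rw [e1] at h3
  have h4 := mul_le_mul_of_nonneg_left h3 hn0.le
  have h5 : 0 ≤ C * (3 / 2) ^ p * Real.log n ^ 2 := by positivity
  have h6 : 0 ≤ C0 * (n * (a / (n : ℝ) ^ 2) ^ p) := by positivity
  linarith

/-- lower bounds of the tail give upper bounds of the rate function -/
theorem RR_of_tail_low {p C : ℝ} (h : ∀ᶠ n : ℕ in atTop, ∀ a : ℝ, 0 < a → a ≤ (n : ℝ) ^ 2 / 8 →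
      Real.exp (-(C * Real.log n ^ 2) - C * (n * (a / (n : ℝ) ^ 2) ^ p)) ≤ par n a)
    {u : ℝ} (hu : 0 < u) (hu8 : u ≤ 1 / 8) : WF.RR u ≤ C * u ^ p := by
  have hu4 : u < 1 / 4 := by linarith
  have h1 := (WF.tendsto_par hu hu4).neg
  rw [neg_neg] at h1
  have hlog : Tendsto (fun n : ℕ => C * (Real.log n ^ 2 / n)) atTop (𝓝 (C * 0)) := by
    apply Tendsto.const_mul
    have h2 : Tendsto (fun x : ℝ => Real.log x ^ 2 / x) atTop (𝓝 0) :=
      (Real.isLittleO_pow_log_id_atTop (n := 2)).tendsto_div_nhds_zero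
    exact h2.comp tendsto_natCast_atTop_atTop
  rw [mul_zero] at hlog
  have h2 : Tendsto (fun n : ℕ => C * (Real.log n ^ 2 / n) + C * u ^ p) atTop
      (𝓝 (0 + C * u ^ p)) := hlog.add_const _
  rw [zero_add] at h2
  refine le_of_tendsto_of_tendsto h1 h2 ?_
  filter_upwards [eventually_ge_atTop 2, h] with n hn h3
  have hn0 : (0 : ℝ) < n := by exact_mod_cast (by omega : 0 < n)
  have h3 := h3 (u * (n : ℝ) ^ 2) (by positivity) (by
    have : 0 < (n : ℝ) ^ 2 := by positivity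
    nlinarith)
  rw [mul_div_assoc, div_self (by positivity), mul_one] at h3
  have h6 := Real.log_le_log (Real.exp_pos _) h3
  rw [Real.log_exp] at h6
  rw [← neg_div, div_le_iff₀ hn0]
  have e1 : (C * (Real.log n ^ 2 / n) + C * u ^ p) * n = C * Real.log n ^ 2 + C * (n * u ^ p) := by
    field_simp
  rw [e1]
  linarith

/-! ### square roots -/

theorem sqrt_lim : Tendsto (fun u : ℝ => √u) (𝓝[>] 0) (𝓝[>] 0) := by
  apply tendsto_nhdsWithin_iff.2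
  constructor
  · have : Tendsto (fun u : ℝ => √u) (𝓝 0) (𝓝 √0) := Real.continuous_sqrt.tendsto 0
    rw [Real.sqrt_zero] at this
    exact this.mono_left nhdsWithin_le_nhds
  · filter_upwards [eventually_mem_nhdsWithin] with x hx
    exact Real.sqrt_pos.2 hx

theorem sq_lim : Tendsto (fun x : ℝ => x ^ 2) (𝓝[>] 0) (𝓝[>] 0) := by
  apply tendsto_nhdsWithin_iff.2
  constructor
  · have h : Continuous (fun u : ℝ => u ^ 2) := by fun_prop
    have : Tendsto (fun u : ℝ => u ^ 2) (𝓝 0) (𝓝 (0 ^ 2)) := h.tendsto 0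
    rw [zero_pow two_ne_zero] at this
    exact this.mono_left nhdsWithin_le_nhds
  · filter_upwards [eventually_mem_nhdsWithin] with x hx
    have : 0 < x := hx
    exact (show 0 < x ^ 2 by positivity)

theorem sqrt_pow {u : ℝ} (hu : 0 < u) (ν : ℝ) : √u ^ (1 / (1 - ν)) = u ^ (1 / (2 - 2 * ν)) := by
  rw [Real.sqrt_eq_rpow, ← Real.rpow_mul hu.le]
  congr 1
  rw [show 2 - 2 * ν = 2 * (1 - ν) by ring, ← one_div_mul_one_div]

theorem om_rho {ν : ℝ} : OmPow WF.RR (1 / (2 - 2 * ν)) ↔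
    ∃ c : ℝ, 0 < c ∧ ∀ᶠ x in 𝓝[>] (0 : ℝ), c * x ^ (1 / (1 - ν)) ≤ WF.rho x := by
  constructor
  · rintro ⟨c, hc, h⟩
    refine ⟨c, hc, ?_⟩
    filter_upwards [sq_lim.eventually h, ev_one] with x h1 ⟨h2, _⟩
    rw [← WF.rho_eq h2.le, ← sqrt_pow (by positivity), Real.sqrt_sq h2.le] at h1
    exact h1
  · rintro ⟨c, hc, h⟩
    refine ⟨c, hc, ?_⟩
    filter_upwards [sqrt_lim.eventually h, ev_one] with u h1 ⟨h2, _⟩
    rw [WF.RR_eq h2.le, ← sqrt_pow h2]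
    exact h1

theorem oh_rho {ν : ℝ} : OhPow WF.RR (1 / (2 - 2 * ν)) ↔
    ∃ C : ℝ, 0 < C ∧ ∀ᶠ x in 𝓝[>] (0 : ℝ), WF.rho x ≤ C * x ^ (1 / (1 - ν)) := by
  constructor
  · intro h
    obtain ⟨C, hC, h⟩ := h.pos
    refine ⟨C, hC, ?_⟩
    filter_upwards [sq_lim.eventually h, ev_one] with x h1 ⟨h2, _⟩
    rw [← WF.rho_eq h2.le, ← sqrt_pow (by positivity), Real.sqrt_sq h2.le] at h1
    exact h1
  · rintro ⟨C, hC, h⟩
    refine ⟨C, ?_⟩
    filter_upwards [sqrt_lim.eventually h, ev_one] with u h1 ⟨h2, _⟩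
    rw [WF.RR_eq h2.le, ← sqrt_pow h2]
    exact h1

end Pool.Agent.H557.IT
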